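import Pool.Agent.Lib.MP_4c2a44_an.Ent

/-!
Sub-sigma-algebras modulo null sets, the sigma-algebra generated by a partition under a group action, and the
relative outer Pinsker algebra.
-/

open MeasureTheory Set Filter Topology
open scoped ENNReal

namespace Pool.Agent.Lib.MP_4c2a44_an

section Cl

variable {X : Type}

/-- the sets that agree up to a null set with a set of `m` -/
@[instance_reducible]
def cl {mX : MeasurableSpace X} (μ : Measure X) (m : MeasurableSpace X) : MeasurableSpace X where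
  MeasurableSet' s := ∃ t, MeasurableSet[m] t ∧ μ (symmDiff s t) = 0
  measurableSet_empty := ⟨∅, @MeasurableSet.empty _ m, by simp⟩
  measurableSet_compl := by
    rintro s ⟨t, ht, h⟩
    exact ⟨tᶜ, ht.compl, by rwa [compl_symmDiff_compl]⟩
  measurableSet_iUnion := by
    intro f hf
    choose t ht h using hf
    refine ⟨⋃ i, t i, MeasurableSet.iUnion ht, ?_⟩
    refine measure_mono_null ?_ (measure_iUnion_null h)
    intro x hx
    rw [Set.mem_symmDiff] at hx
    rcases hx with ⟨h1, h2⟩ | ⟨h1, h2⟩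
    · obtain ⟨i, hi⟩ := Set.mem_iUnion.1 h1
      exact Set.mem_iUnion.2 ⟨i, Set.mem_symmDiff.2 (Or.inl ⟨hi, fun h' => h2
        (Set.mem_iUnion.2 ⟨i, h'⟩)⟩)⟩
    · obtain ⟨i, hi⟩ := Set.mem_iUnion.1 h1
      exact Set.mem_iUnion.2 ⟨i, Set.mem_symmDiff.2 (Or.inr ⟨hi, fun h' => h2
        (Set.mem_iUnion.2 ⟨i, h'⟩)⟩)⟩

variable {m m' : MeasurableSpace X} {mX : MeasurableSpace X} {μ : Measure X}

theorem le_cl : m ≤ cl μ m := fun s hs => ⟨s, hs, by simp⟩

theorem cl_le (h : m ≤ cl μ m') : cl μ m ≤ cl μ m' := by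
  rintro s ⟨t, ht, hst⟩
  obtain ⟨u, hu, htu⟩ := h t ht
  refine ⟨u, hu, measure_mono_null ?_ (measure_union_null hst htu)⟩
  exact symmDiff_triangle s t u

theorem cl_mono (h : m ≤ m') : cl μ m ≤ cl μ m' :=
  cl_le (h.trans le_cl)

theorem cl_ae {s t : Set X} (ht : MeasurableSet[cl μ m] t)
    (h : s =ᵐ[μ] t) : MeasurableSet[cl μ m] s := by
  obtain ⟨u, hu, htu⟩ := ht
  refine ⟨u, hu, measure_mono_null (symmDiff_triangle s t u) (measure_union_null ?_ htu)⟩
  exact measure_symmDiff_eq_zero_iff.2 h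

theorem cl_null {s : Set X} (h : μ s = 0) : MeasurableSet[cl μ m] s :=
  ⟨∅, @MeasurableSet.empty _ m, by simpa using h⟩

end Cl

section Act

variable (G : Type) {X : Type} [Group G] [MulAction G X]

/-- `m` is invariant under `G` -/
def Inv (m : MeasurableSpace X) : Prop :=
  ∀ (g : G) (s : Set X), MeasurableSet[m] s → MeasurableSet[m] ((fun x : X => g • x) ⁻¹' s)

/-- the sigma-algebra generated by the translates of the level sets of `f` -/
@[instance_reducible]
def gen (f : X → ℕ) : MeasurableSpace X :=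
  MeasurableSpace.generateFrom {u : Set X | ∃ (g : G) (k : ℕ), u = (fun x : X => g • x) ⁻¹' (f ⁻¹' {k})}

variable {G}

theorem inv_iff {m : MeasurableSpace X} :
    Inv G m ↔ ∀ g : G, m.comap (fun x : X => g • x) ≤ m := by
  constructor
  · rintro h g s ⟨t, ht, rfl⟩
    exact h g t ht
  · intro h g s hs
    exact h g _ ⟨s, hs, rfl⟩

theorem Inv.sup {m m' : MeasurableSpace X} (h : Inv G m) (h' : Inv G m') : Inv G (m ⊔ m') := by
  rw [inv_iff] at *
  intro g
  rw [MeasurableSpace.comap_sup]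
  exact sup_le_sup (h g) (h' g)

theorem gen_inv (f : X → ℕ) : Inv G (gen G f) := by
  rw [inv_iff]
  intro g
  unfold gen
  rw [MeasurableSpace.comap_generateFrom]
  apply MeasurableSpace.generateFrom_le
  rintro _ ⟨_, ⟨h, k, rfl⟩, rfl⟩
  apply MeasurableSpace.measurableSet_generateFrom
  refine ⟨h * g, k, ?_⟩
  ext x
  simp [mul_smul]

theorem gen_self (f : X → ℕ) (k : ℕ) : MeasurableSet[gen G f] (f ⁻¹' {k}) := by
  apply MeasurableSpace.measurableSet_generateFrom
  refine ⟨1, k, ?_⟩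
  ext x
  simp

theorem gen_set (f : X → ℕ) (A : Set ℕ) : MeasurableSet[gen G f] (f ⁻¹' A) := by
  have : f ⁻¹' A = ⋃ k ∈ A, f ⁻¹' {k} := by ext x; simp
  rw [this]
  exact MeasurableSet.biUnion (Set.to_countable A) fun k _ => gen_self f k

theorem gen_le {f : X → ℕ} {m : MeasurableSpace X} (hm : Inv G m)
    (hf : ∀ k, MeasurableSet[m] (f ⁻¹' {k})) : gen G f ≤ m := by
  apply MeasurableSpace.generateFrom_le
  rintro _ ⟨g, k, rfl⟩
  exact hm g _ (hf k)

variable {m : MeasurableSpace X} {mX : MeasurableSpace X} {μ : Measure X}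

theorem cl_inv (hμ : ∀ g : G, MeasurePreserving (fun x : X => g • x) μ μ)
    (hm : Inv G m) : Inv G (cl μ m) := by
  rintro g s ⟨t, ht, hst⟩
  refine ⟨(fun x : X => g • x) ⁻¹' t, hm g t ht, ?_⟩
  rw [← Set.preimage_symmDiff]
  exact (hμ g).quasiMeasurePreserving.preimage_null hst

theorem gen_le_of_ae (hμ : ∀ g : G, MeasurePreserving (fun x : X => g • x) μ μ) {β J : X → ℕ}
    {d : ℕ → ℕ} (h : (fun x => d (J x)) =ᵐ[μ] β) : gen G β ≤ cl μ (gen G J) := by
  refine gen_le (cl_inv hμ (gen_inv J)) fun k => ?_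
  have h1 : MeasurableSet[cl μ (gen G J)] (J ⁻¹' (d ⁻¹' {k})) := le_cl _ (gen_set J _)
  refine cl_ae h1 ?_
  filter_upwards [h] with x hx
  apply propext
  show β x = k ↔ d (J x) = k
  rw [hx]

end Act

section Outer

variable (G : Type) {X : Type} [Group G] [MulAction G X]

/-- `s` belongs to the relative outer Pinsker algebra over `m`: for all `ε` there is a partition `β` of entropy
`≤ ε` such that `s` is measurable with respect to `m` and the translates of `β` -/
def Out {mX : MeasurableSpace X} (μ : Measure X) (m : MeasurableSpace X) (s : Set X) : Prop :=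
  MeasurableSet[mX] s ∧ ∀ ε : ℝ≥0∞, 0 < ε → ∃ β, Small μ ε β ∧ MeasurableSet[cl μ (m ⊔ gen G β)] s

variable {G} {m : MeasurableSpace X} {mX : MeasurableSpace X} {μ : Measure X} [IsProbabilityMeasure μ]

theorem out_countable (hμ : ∀ g : G, MeasurePreserving (fun x : X => g • x) μ μ)
    {s : ℕ → Set X} (hs : ∀ i, Out G μ m (s i))
    {ε : ℝ≥0∞} (hε : 0 < ε) :
    ∃ β, Small μ ε β ∧ ∀ i, MeasurableSet[cl μ (m ⊔ gen G β)] (s i) := by
  have hε' : 0 < min ε 1 := lt_min hε one_pos
  obtain ⟨e, he, hsum⟩ := ENNReal.exists_pos_sum_of_countable' hε'.ne' ℕ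
  choose β hβ hβs using fun i => (hs i).2 (e i) (he i)
  obtain ⟨J, hJ, hd⟩ := small_join hβ hsum.le (by simp)
  refine ⟨J, ⟨hJ.meas, hJ.supp.trans (min_le_left _ _), hJ.en.trans (min_le_left _ _)⟩, fun i => ?_⟩
  have h1 : m ⊔ gen G (β i) ≤ cl μ (m ⊔ gen G J) := by
    refine sup_le (le_sup_left.trans le_cl) ?_
    exact (gen_le_of_ae hμ (hd i)).trans (cl_mono le_sup_right)
  exact cl_le h1 _ (hβs i)

theorem small_zero {ε : ℝ≥0∞} : Small μ ε (fun _ => 0) :=
  ⟨measurable_const, by simp, by rw [ent_zero]; exact bot_le⟩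

theorem out_of_cl {s : Set X} (h1 : MeasurableSet s) (h2 : MeasurableSet[cl μ m] s) :
    Out G μ m s :=
  ⟨h1, fun _ _ => ⟨fun _ => 0, small_zero, cl_mono le_sup_left _ h2⟩⟩

/-- the relative outer Pinsker algebra -/
@[instance_reducible]
def outAlg {mX : MeasurableSpace X} {μ : Measure X} [IsProbabilityMeasure μ]
    (hμ : ∀ g : G, MeasurePreserving (fun x : X => g • x) μ μ)
    (m : MeasurableSpace X) : MeasurableSpace X where
  MeasurableSet' s := Out G μ m s
  measurableSet_empty := out_of_cl (@MeasurableSet.empty _ mX) (@MeasurableSet.empty _ (cl μ m))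
  measurableSet_compl := by
    rintro s ⟨h1, h2⟩
    refine ⟨h1.compl, fun ε hε => ?_⟩
    obtain ⟨β, hβ, h⟩ := h2 ε hε
    exact ⟨β, hβ, h.compl⟩
  measurableSet_iUnion := by
    intro f hf
    refine ⟨MeasurableSet.iUnion fun i => (hf i).1, fun ε hε => ?_⟩
    obtain ⟨β, hβ, h⟩ := out_countable hμ hf hε
    exact ⟨β, hβ, MeasurableSet.iUnion h⟩

theorem outAlg_le (hμ : ∀ g : G, MeasurePreserving (fun x : X => g • x) μ μ) :
    outAlg hμ m ≤ mX := fun _ hs => hs.1

theorem le_outAlg (hμ : ∀ g : G, MeasurePreserving (fun x : X => g • x) μ μ)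
    (hm : m ≤ mX) : m ≤ outAlg hμ m := by
  intro s hs
  exact out_of_cl (hm s hs) (le_cl s hs)

theorem outAlg_inv (hμ : ∀ g : G, MeasurePreserving (fun x : X => g • x) μ μ)
    (hi : Inv G m) : Inv G (outAlg hμ m) := by
  rintro g s ⟨h1, h2⟩
  refine ⟨(hμ g).measurable h1, fun ε hε => ?_⟩
  obtain ⟨β, hβ, h⟩ := h2 ε hε
  exact ⟨β, hβ, cl_inv hμ (hi.sup (gen_inv β)) g s h⟩

theorem outAlg_null (hμ : ∀ g : G, MeasurePreserving (fun x : X => g • x) μ μ)
    {s : Set X} (hs : MeasurableSet s) (h : μ s = 0) :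
    MeasurableSet[outAlg hμ m] s :=
  out_of_cl hs (cl_null h)

/-- if the outer Pinsker algebra over `m` is everything, then one small partition generates over `m` -/
theorem out_all [MeasurableSpace.CountablyGenerated X]
    (hμ : ∀ g : G, MeasurePreserving (fun x : X => g • x) μ μ)
    (h : outAlg hμ m = mX) {ε : ℝ≥0∞} (hε : 0 < ε) :
    ∃ β, Small μ ε β ∧ mX ≤ cl μ (m ⊔ gen G β) := by
  obtain ⟨b, hb, hgen⟩ := MeasurableSpace.CountablyGenerated.isCountablyGenerated (α := X)
  rcases b.eq_empty_or_nonempty with hb0 | hne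
  · refine ⟨fun _ => 0, small_zero, ?_⟩
    have : mX = ⊥ := by rw [hgen, hb0]; simp
    exact this.le.trans bot_le
  · obtain ⟨s, hs⟩ := hb.exists_eq_range hne
    have hsm : ∀ i, Out G μ m (s i) := by
      intro i
      have h1 : MeasurableSet (s i) := by
        rw [hgen]
        exact MeasurableSpace.measurableSet_generateFrom (by rw [hs]; exact ⟨i, rfl⟩)
      rw [← h] at h1
      exact h1
    obtain ⟨β, hβ, hβs⟩ := out_countable hμ hsm hε
    refine ⟨β, hβ, ?_⟩
    conv_lhs => rw [hgen]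
    apply MeasurableSpace.generateFrom_le
    intro t ht
    rw [hs] at ht
    obtain ⟨i, rfl⟩ := ht
    exact hβs i

end Outer

end Pool.Agent.Lib.MP_4c2a44_an
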