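import Pool.Agent.Lib.MP_4c2a44_an.Cl

/-!
Random covering: in a free action there are sets `B` of measure about `p` such that the sets `t B`, `t ∈ F`, cover all
but `(1 - p) ^ |F|` of the space.
-/

open MeasureTheory Set Filter Topology
open scoped ENNReal

namespace Pool.Agent.Lib.MP_4c2a44_an

section Comb

variable {ι : Type} [Fintype ι] [DecidableEq ι]

/-- weight of the subset `S` -/
def wt (p : ℝ) (S : Finset ι) : ℝ := p ^ S.card * (1 - p) ^ (Fintype.card ι - S.card)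

omit [DecidableEq ι] in
theorem wt_nonneg {p : ℝ} (h0 : 0 ≤ p) (h1 : p ≤ 1) (S : Finset ι) : 0 ≤ wt p S := by
  unfold wt
  have : 0 ≤ 1 - p := by linarith
  positivity

theorem wt_disj (p : ℝ) (T : Finset ι) :
    ∑ S : Finset ι, (if Disjoint S T then wt p S else 0) = (1 - p) ^ T.card := by
  rw [← Finset.sum_filter]
  have h1 : (Finset.univ.filter (fun S : Finset ι => Disjoint S T)) = Tᶜ.powerset := by
    ext S
    simp only [Finset.mem_filter, Finset.mem_univ, true_and, Finset.mem_powerset]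
    exact Finset.disjoint_iff_inter_eq_empty.trans (by
      rw [← Finset.disjoint_iff_inter_eq_empty]
      exact (Finset.subset_compl_iff_disjoint_right).symm)
  rw [h1]
  have h2 : ∀ S ∈ Tᶜ.powerset, wt p S = (1 - p) ^ T.card * (p ^ S.card * (1 - p) ^ (Tᶜ.card - S.card)) := by
    intro S hS
    have hc : S.card ≤ Tᶜ.card := Finset.card_le_card (Finset.mem_powerset.1 hS)
    have hT : T.card + Tᶜ.card = Fintype.card ι := Finset.card_add_card_compl T
    unfold wt
    have : Fintype.card ι - S.card = T.card + (Tᶜ.card - S.card) := by omega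
    rw [this, pow_add]
    ring
  rw [Finset.sum_congr rfl h2, ← Finset.mul_sum, Finset.sum_pow_mul_eq_add_pow]
  simp

theorem wt_sum (p : ℝ) : ∑ S : Finset ι, wt p S = 1 := by
  have := wt_disj (ι := ι) p ∅
  simpa using this

theorem wt_mem (p : ℝ) (i : ι) : ∑ S : Finset ι, (if i ∈ S then wt p S else 0) = p := by
  have h1 := wt_disj (ι := ι) p {i}
  have h2 := wt_sum (ι := ι) p
  have h3 : ∀ S : Finset ι, wt p S = (if i ∈ S then wt p S else 0)
      + (if Disjoint S {i} then wt p S else 0) := by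
    intro S
    by_cases h : i ∈ S <;> simp [h]
  rw [Finset.sum_congr rfl (fun S _ => h3 S), Finset.sum_add_distrib, h1] at h2
  simp at h2
  linarith

end Comb

section Avg

theorem exists_three {α : Type} [Fintype α] [Nonempty α] {W T1 T2 T3 : α → ℝ≥0∞} {a1 a2 a3 : ℝ≥0∞}
    (hW : ∑ S, W S = 1) (h1 : ∑ S, W S * T1 S ≤ a1) (h2 : ∑ S, W S * T2 S ≤ a2)
    (h3 : ∑ S, W S * T3 S ≤ a3) (a10 : a1 ≠ 0) (a1t : a1 ≠ ∞) (a20 : a2 ≠ 0) (a2t : a2 ≠ ∞)
    (a30 : a3 ≠ 0) (a3t : a3 ≠ ∞) :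
    ∃ S, T1 S ≤ 3 * a1 ∧ T2 S ≤ 3 * a2 ∧ T3 S ≤ 3 * a3 := by
  set Z : α → ℝ≥0∞ := fun S => T1 S / a1 + T2 S / a2 + T3 S / a3 with hZ
  obtain ⟨S, -, hS⟩ := Finset.exists_min_image (Finset.univ : Finset α) Z ⟨Classical.arbitrary α,
    Finset.mem_univ _⟩
  have hsum : ∑ S', W S' * Z S' ≤ 3 := by
    have e : ∀ S', W S' * Z S' = (W S' * T1 S') / a1 + (W S' * T2 S') / a2 + (W S' * T3 S') / a3 := by
      intro S'
      simp only [hZ, mul_add, mul_div_assoc]
    simp_rw [e, Finset.sum_add_distrib]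
    have d : ∀ (f : α → ℝ≥0∞) (a : ℝ≥0∞), ∑ x, f x / a = (∑ x, f x) / a := by
      intro f a
      simp_rw [div_eq_mul_inv, Finset.sum_mul]
    rw [d, d, d]
    have q : ∀ {x a : ℝ≥0∞}, x ≤ a → a ≠ 0 → a ≠ ∞ → x / a ≤ 1 := by
      intro x a hx h0 ht
      rw [ENNReal.div_le_iff h0 ht, one_mul]
      exact hx
    calc _ ≤ (1 : ℝ≥0∞) + 1 + 1 := by
          gcongr
          · exact q h1 a10 a1t
          · exact q h2 a20 a2t
          · exact q h3 a30 a3t
      _ = 3 := by norm_num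
  have hZS : Z S ≤ 3 := by
    calc Z S = ∑ S', W S' * Z S := by rw [← Finset.sum_mul, hW, one_mul]
      _ ≤ ∑ S', W S' * Z S' := Finset.sum_le_sum fun S' _ => by
          gcongr
          exact hS S' (Finset.mem_univ _)
      _ ≤ 3 := hsum
  have q : ∀ {x a : ℝ≥0∞}, x / a ≤ 3 → a ≠ 0 → a ≠ ∞ → x ≤ 3 * a := by
    intro x a hx h0 ht
    rwa [ENNReal.div_le_iff h0 ht] at hx
  refine ⟨S, q (le_trans ?_ hZS) a10 a1t, q (le_trans ?_ hZS) a20 a2t, q (le_trans ?_ hZS) a30 a3t⟩
  · exact le_add_right (le_add_right le_rfl)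
  · exact le_add_right (le_add_left le_rfl)
  · exact le_add_left le_rfl

end Avg

section Cov

variable {G Y X : Type} [Group G] [MulAction G Y] {mY : MeasurableSpace Y}
  {mX : MeasurableSpace X} {ν : Measure Y} [IsProbabilityMeasure ν]

open Classical in
/-- the covering lemma for a finite labelling `c` -/
theorem cover_aux {ι : Type} [Fintype ι] [MeasurableSpace ι]
    [MeasurableSingletonClass ι] (hact : ∀ g : G, Measurable (fun y : Y => g • y))
    {c : Y → ι} (hc : Measurable c) (F : Finset G) {p : ℝ} (hp0 : 0 < p) (hp1 : p < 1)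
    {δ : ℝ≥0∞} (hδt : δ ≠ ∞)
    (hgood : ν {y | ¬ Set.InjOn (fun t : G => c (t⁻¹ • y)) F} ≤ δ)
    {μ : Measure X} {π : X → Y} (hπ : Measurable π) {f : X → ℝ≥0∞} (hf : Measurable f)
    {I : ℝ≥0∞} (hI : ∫⁻ x, f x ∂μ ≤ I) (hI0 : I ≠ 0) (hIt : I ≠ ∞) :
    ∃ B : Set Y, MeasurableSet B ∧ ν B ≤ 3 * ENNReal.ofReal p ∧
      ν {y | ∀ t ∈ F, t⁻¹ • y ∉ B} ≤ 3 * (ENNReal.ofReal ((1 - p) ^ F.card) + δ) ∧
      ∫⁻ x in π ⁻¹' B, f x ∂μ ≤ 3 * (ENNReal.ofReal p * I) := by
  have hq : 0 < 1 - p := by linarith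
  set W : Finset ι → ℝ≥0∞ := fun S => ENNReal.ofReal (wt p S) with hW
  have hwn : ∀ S : Finset ι, 0 ≤ wt p S := wt_nonneg hp0.le hp1.le
  have hWsum : ∑ S, W S = 1 := by
    simp only [hW]
    rw [← ENNReal.ofReal_sum_of_nonneg (fun S _ => hwn S), wt_sum]
    simp
  have hWmem : ∀ i : ι, ∑ S, (if i ∈ S then W S else 0) = ENNReal.ofReal p := by
    intro i
    have : ∀ S : Finset ι, (if i ∈ S then W S else 0) = ENNReal.ofReal (if i ∈ S then wt p S else 0) := by
      intro S; split_ifs <;> simp [hW]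
    simp_rw [this]
    rw [← ENNReal.ofReal_sum_of_nonneg (fun S _ => by split_ifs; exacts [hwn S, le_rfl]), wt_mem]
  have hWdis : ∀ T : Finset ι, ∑ S, (if Disjoint S T then W S else 0)
      = ENNReal.ofReal ((1 - p) ^ T.card) := by
    intro T
    have : ∀ S : Finset ι, (if Disjoint S T then W S else 0)
        = ENNReal.ofReal (if Disjoint S T then wt p S else 0) := by
      intro S; split_ifs <;> simp [hW]
    simp_rw [this]
    rw [← ENNReal.ofReal_sum_of_nonneg (fun S _ => by split_ifs; exacts [hwn S, le_rfl]), wt_disj]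
  have hBm : ∀ S : Finset ι, MeasurableSet (c ⁻¹' (S : Set ι)) := fun S => hc S.measurableSet
  -- T1
  have t1 : ∑ S, W S * ν (c ⁻¹' (S : Set ι)) ≤ ENNReal.ofReal p := by
    have e : ∀ S : Finset ι, W S * ν (c ⁻¹' (S : Set ι)) = ∫⁻ y, (if c y ∈ S then W S else 0) ∂ν := by
      intro S
      have : (fun y => if c y ∈ S then W S else 0) = (c ⁻¹' (S : Set ι)).indicator (fun _ => W S) := by
        ext y; simp [Set.indicator]
      rw [this, lintegral_indicator (hBm S)]
      simp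
    simp_rw [e]
    rw [← lintegral_finsetSum]
    · simp_rw [hWmem]
      simp
    · intro S _
      exact Measurable.ite (hBm S) measurable_const measurable_const
  -- T3
  have t3 : ∑ S, W S * ∫⁻ x in π ⁻¹' (c ⁻¹' (S : Set ι)), f x ∂μ ≤ ENNReal.ofReal p * I := by
    have hBm' : ∀ S : Finset ι, MeasurableSet (π ⁻¹' (c ⁻¹' (S : Set ι))) := fun S => hπ (hBm S)
    have e : ∀ S : Finset ι, W S * ∫⁻ x in π ⁻¹' (c ⁻¹' (S : Set ι)), f x ∂μ
        = ∫⁻ x, (if c (π x) ∈ S then W S else 0) * f x ∂μ := by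
      intro S
      have : (fun x => (if c (π x) ∈ S then W S else 0) * f x)
          = (π ⁻¹' (c ⁻¹' (S : Set ι))).indicator (fun x => W S * f x) := by
        ext x; simp [Set.indicator]
      rw [this, lintegral_indicator (hBm' S), lintegral_const_mul _ hf]
    simp_rw [e]
    rw [← lintegral_finsetSum]
    · simp_rw [← Finset.sum_mul, hWmem]
      rw [lintegral_const_mul _ hf]
      gcongr
    · intro S _
      exact (Measurable.ite (hBm' S) measurable_const measurable_const).mul hf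
  -- T2
  have hUm : ∀ S : Finset ι, MeasurableSet {y | ∀ t ∈ F, t⁻¹ • y ∉ c ⁻¹' (S : Set ι)} := by
    intro S
    have : {y | ∀ t ∈ F, t⁻¹ • y ∉ c ⁻¹' (S : Set ι)}
        = ⋂ t ∈ F, ((fun y : Y => t⁻¹ • y) ⁻¹' (c ⁻¹' (S : Set ι)))ᶜ := by
      ext y; simp
    rw [this]
    exact Finset.measurableSet_biInter F fun t _ => ((hact t⁻¹) (hBm S)).compl
  have hinj : MeasurableSet {y | ¬ Set.InjOn (fun t : G => c (t⁻¹ • y)) F} := by
    have : {y | ¬ Set.InjOn (fun t : G => c (t⁻¹ • y)) F}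
        = ⋃ t ∈ F, ⋃ s ∈ F, ⋃ (_ : t ≠ s), ⋃ i : ι, ((fun y : Y => t⁻¹ • y) ⁻¹' (c ⁻¹' {i})) ∩
          ((fun y : Y => s⁻¹ • y) ⁻¹' (c ⁻¹' {i})) := by
      ext y
      simp only [Set.mem_ofPred_eq, Set.InjOn, not_forall, Set.mem_iUnion, Set.mem_inter_iff,
        Set.mem_preimage, Set.mem_singleton_iff, exists_prop]
      constructor
      · rintro ⟨t, ht, s, hs, h, hne⟩
        exact ⟨t, ht, s, hs, hne, _, rfl, h.symm⟩
      · rintro ⟨t, ht, s, hs, hne, i, h1, h2⟩
        exact ⟨t, ht, s, hs, h1.trans h2.symm, hne⟩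
    rw [this]
    refine Finset.measurableSet_biUnion F fun t _ => Finset.measurableSet_biUnion F fun s _ =>
      MeasurableSet.iUnion fun _ => MeasurableSet.iUnion fun i => ?_
    exact ((hact t⁻¹) (hc (measurableSet_singleton i))).inter
      ((hact s⁻¹) (hc (measurableSet_singleton i)))
  have t2 : ∑ S, W S * ν {y | ∀ t ∈ F, t⁻¹ • y ∉ c ⁻¹' (S : Set ι)}
      ≤ ENNReal.ofReal ((1 - p) ^ F.card) + δ := by
    have e : ∀ S : Finset ι, W S * ν {y | ∀ t ∈ F, t⁻¹ • y ∉ c ⁻¹' (S : Set ι)}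
        = ∫⁻ y, (if Disjoint S (F.image fun t : G => c (t⁻¹ • y)) then W S else 0) ∂ν := by
      intro S
      have : (fun y => if Disjoint S (F.image fun t : G => c (t⁻¹ • y)) then W S else 0)
          = {y | ∀ t ∈ F, t⁻¹ • y ∉ c ⁻¹' (S : Set ι)}.indicator (fun _ => W S) := by
        ext y
        have hiff : Disjoint S (F.image fun t : G => c (t⁻¹ • y)) ↔
            y ∈ {y | ∀ t ∈ F, t⁻¹ • y ∉ c ⁻¹' (S : Set ι)} := by
          rw [Finset.disjoint_right]
          simp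
        by_cases h : y ∈ {y | ∀ t ∈ F, t⁻¹ • y ∉ c ⁻¹' (S : Set ι)}
        · rw [if_pos (hiff.2 h), Set.indicator_of_mem h]
        · rw [if_neg (fun h' => h (hiff.1 h')), Set.indicator_of_notMem h]
      rw [this, lintegral_indicator (hUm S)]
      simp
    have hle : ∀ y, ∑ S : Finset ι, (if Disjoint S (F.image fun t : G => c (t⁻¹ • y)) then W S else 0)
        ≤ ENNReal.ofReal ((1 - p) ^ F.card) +
          {y | ¬ Set.InjOn (fun t : G => c (t⁻¹ • y)) F}.indicator (fun _ => 1) y := by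
      intro y
      rw [hWdis]
      by_cases hy : y ∈ {y | ¬ Set.InjOn (fun t : G => c (t⁻¹ • y)) F}
      · rw [Set.indicator_of_mem hy]
        refine le_trans ?_ (le_add_left le_rfl)
        rw [← ENNReal.ofReal_one]
        apply ENNReal.ofReal_le_ofReal
        exact pow_le_one₀ hq.le (by linarith)
      · rw [Set.indicator_of_notMem hy, add_zero]
        have hy' : Set.InjOn (fun t : G => c (t⁻¹ • y)) F := not_not.1 hy
        rw [Finset.card_image_of_injOn hy']
    simp_rw [e]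
    rw [← lintegral_finsetSum']
    · calc ∫⁻ y, ∑ S : Finset ι, (if Disjoint S (F.image fun t : G => c (t⁻¹ • y)) then W S else 0) ∂ν
          ≤ ∫⁻ y, (ENNReal.ofReal ((1 - p) ^ F.card) +
          {y | ¬ Set.InjOn (fun t : G => c (t⁻¹ • y)) F}.indicator (fun _ => 1) y) ∂ν :=
            lintegral_mono hle
        _ ≤ _ := by
            rw [lintegral_add_left measurable_const, lintegral_indicator hinj]
            simp only [lintegral_const, measure_univ, mul_one, Measure.restrict_apply,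
              MeasurableSet.univ, Set.univ_inter, one_mul]
            gcongr
    · intro S _
      have : (fun y => if Disjoint S (F.image fun t : G => c (t⁻¹ • y)) then W S else 0)
          = {y | ∀ t ∈ F, t⁻¹ • y ∉ c ⁻¹' (S : Set ι)}.indicator (fun _ => W S) := by
        ext y
        have hiff : Disjoint S (F.image fun t : G => c (t⁻¹ • y)) ↔
            y ∈ {y | ∀ t ∈ F, t⁻¹ • y ∉ c ⁻¹' (S : Set ι)} := by
          rw [Finset.disjoint_right]
          simp
        by_cases h : y ∈ {y | ∀ t ∈ F, t⁻¹ • y ∉ c ⁻¹' (S : Set ι)}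
        · rw [if_pos (hiff.2 h), Set.indicator_of_mem h]
        · rw [if_neg (fun h' => h (hiff.1 h')), Set.indicator_of_notMem h]
      rw [this]
      exact (measurable_const.indicator (hUm S)).aemeasurable
  obtain ⟨S, h1, h2, h3⟩ := exists_three hWsum t1 t2 t3
    (by simpa using hp0) (by simp) (by
      intro h
      rw [add_eq_zero] at h
      have : 0 < (1 - p) ^ F.card := by positivity
      simp [this.not_ge] at h) (by simp [hδt])
    (mul_ne_zero (by simpa using hp0) hI0) (ENNReal.mul_ne_top (by simp) hIt)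
  exact ⟨c ⁻¹' (S : Set ι), hBm S, h1, h2, h3⟩

/-- finite labellings that separate the points `t⁻¹ y`, `t ∈ F`, up to measure `δ` -/
theorem exists_label [MeasurableSpace.CountablySeparated Y]
    (hact : ∀ g : G, Measurable (fun y : Y => g • y))
    (F : Finset G) (hfree : ∀ t ∈ F, ∀ s ∈ F, t ≠ s → ν {y : Y | (t * s⁻¹) • y = y} = 0)
    {δ : ℝ≥0∞} (hδ : 0 < δ) :
    ∃ (l : ℕ) (c : Y → (Fin l → Bool)), Measurable c ∧
      ν {y | ¬ Set.InjOn (fun t : G => c (t⁻¹ • y)) F} ≤ δ := by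
  obtain ⟨e, he, hinj⟩ := MeasurableSpace.measurable_injection_nat_bool_of_countablySeparated Y
  set c : ∀ l : ℕ, Y → (Fin l → Bool) := fun l y i => e y i with hcdef
  have hcm : ∀ l, Measurable (c l) := fun l => measurable_pi_lambda _ fun i =>
    (measurable_pi_apply (i : ℕ)).comp he
  have hbm : ∀ l, MeasurableSet {y | ¬ Set.InjOn (fun t : G => c l (t⁻¹ • y)) F} := by
    intro l
    have : {y | ¬ Set.InjOn (fun t : G => c l (t⁻¹ • y)) F}
        = ⋃ t ∈ F, ⋃ s ∈ F, ⋃ (_ : t ≠ s), ⋃ i : (Fin l → Bool),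
          ((fun y : Y => t⁻¹ • y) ⁻¹' (c l ⁻¹' {i})) ∩ ((fun y : Y => s⁻¹ • y) ⁻¹' (c l ⁻¹' {i})) := by
      ext y
      simp only [Set.mem_ofPred_eq, Set.InjOn, not_forall, Set.mem_iUnion, Set.mem_inter_iff,
        Set.mem_preimage, Set.mem_singleton_iff, exists_prop]
      constructor
      · rintro ⟨t, ht, s, hs, h, hne⟩
        exact ⟨t, ht, s, hs, hne, _, rfl, h.symm⟩
      · rintro ⟨t, ht, s, hs, hne, i, h1, h2⟩
        exact ⟨t, ht, s, hs, h1.trans h2.symm, hne⟩
    rw [this]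
    refine Finset.measurableSet_biUnion F fun t _ => Finset.measurableSet_biUnion F fun s _ =>
      MeasurableSet.iUnion fun _ => MeasurableSet.iUnion fun i => ?_
    exact ((hact t⁻¹) (hcm l (measurableSet_singleton i))).inter
      ((hact s⁻¹) (hcm l (measurableSet_singleton i)))
  have hanti : Antitone fun l => {y | ¬ Set.InjOn (fun t : G => c l (t⁻¹ • y)) F} := by
    intro l l' hl y hy hcon
    apply hy
    intro t ht s hs hts
    apply hcon ht hs
    ext i
    have := congrFun hts (Fin.castLE hl i)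
    exact this
  have hlim := tendsto_measure_iInter_atTop (μ := ν) (fun l => (hbm l).nullMeasurableSet) hanti
    ⟨0, measure_ne_top _ _⟩
  have hzero : ν (⋂ l, {y | ¬ Set.InjOn (fun t : G => c l (t⁻¹ • y)) F}) = 0 := by
    refine measure_mono_null (t := ⋃ t ∈ F, ⋃ s ∈ F, ⋃ (_ : t ≠ s), {y : Y | (t * s⁻¹) • y = y}) ?_ ?_
    · intro y hy
      rw [Set.mem_iInter] at hy
      by_contra hcon
      -- all points `t⁻¹ y` are distinct
      have hne : ∀ t ∈ F, ∀ s ∈ F, t ≠ s → t⁻¹ • y ≠ s⁻¹ • y := by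
        intro t ht s hs hts h
        apply hcon
        simp only [Set.mem_iUnion, exists_prop]
        refine ⟨t, ht, s, hs, hts, ?_⟩
        show (t * s⁻¹) • y = y
        rw [mul_smul, ← h, smul_inv_smul]
      have hex : ∀ q : G × G, q ∈ F ×ˢ F → ∃ l : ℕ, q.1 ≠ q.2 → c l (q.1⁻¹ • y) ≠ c l (q.2⁻¹ • y) := by
        rintro ⟨t, s⟩ hq
        rw [Finset.mem_product] at hq
        by_cases hts : t = s
        · exact ⟨0, fun h => absurd hts h⟩
        · have h1 : e (t⁻¹ • y) ≠ e (s⁻¹ • y) := fun h => hne t hq.1 s hq.2 hts (hinj h)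
          obtain ⟨i, hi⟩ := Function.ne_iff.1 h1
          exact ⟨i + 1, fun _ h => hi (congrFun h ⟨i, Nat.lt_succ_self i⟩)⟩
      choose! L hL using hex
      set M := (F ×ˢ F).sup L with hM
      apply hy M
      intro t ht s hs hts
      by_contra hts'
      have hq : (t, s) ∈ F ×ˢ F := Finset.mem_product.2 ⟨ht, hs⟩
      have hle : L (t, s) ≤ M := Finset.le_sup hq
      apply hL (t, s) hq hts'
      ext i
      exact congrFun hts (Fin.castLE hle i)
    · refine (measure_biUnion_null_iff (I := (F : Set G)) F.countable_toSet).2 fun t ht => ?_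
      refine (measure_biUnion_null_iff (I := (F : Set G)) F.countable_toSet).2 fun s hs => ?_
      refine measure_iUnion_null fun hts => ?_
      exact hfree t ht s hs hts
  rw [hzero] at hlim
  obtain ⟨l, hl⟩ := (hlim.eventually (ge_mem_nhds hδ)).exists
  exact ⟨l, c l, hcm l, hl⟩

/-- the covering lemma -/
theorem cover [MeasurableSpace.CountablySeparated Y]
    (hact : ∀ g : G, Measurable (fun y : Y => g • y))
    (F : Finset G) (hfree : ∀ t ∈ F, ∀ s ∈ F, t ≠ s → ν {y : Y | (t * s⁻¹) • y = y} = 0)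
    {p : ℝ} (hp0 : 0 < p) (hp1 : p < 1) {δ : ℝ≥0∞} (hδ : 0 < δ) (hδt : δ ≠ ∞)
    {μ : Measure X} {π : X → Y} (hπ : Measurable π) {f : X → ℝ≥0∞} (hf : Measurable f)
    {I : ℝ≥0∞} (hI : ∫⁻ x, f x ∂μ ≤ I) (hI0 : I ≠ 0) (hIt : I ≠ ∞) :
    ∃ B : Set Y, MeasurableSet B ∧ ν B ≤ 3 * ENNReal.ofReal p ∧
      ν {y | ∀ t ∈ F, t⁻¹ • y ∉ B} ≤ 3 * (ENNReal.ofReal ((1 - p) ^ F.card) + δ) ∧
      ∫⁻ x in π ⁻¹' B, f x ∂μ ≤ 3 * (ENNReal.ofReal p * I) := by
  obtain ⟨l, c, hc, hgood⟩ := exists_label hact F hfree hδ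
  exact cover_aux hact hc F hp0 hp1 hδt hgood hπ hf hI hI0 hIt

end Cov

end Pool.Agent.Lib.MP_4c2a44_an
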