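import Mathlib

/-!
Rokhlin entropy, conditional entropy of finite partitions, and partitions that are negligible modulo a subgroup.
-/

set_option autoImplicit false

open MeasureTheory
open scoped ENNReal

namespace Pool.Agent.Lib.MP_4c2a44_an

/-- Rokhlin entropy of the action of `G` on `(X, μ)`: the least Shannon entropy of a countable generating
partition (spelled as in the frozen statement) -/
noncomputable def rok (G : Type) [Group G] {X : Type} [MeasurableSpace X] [MulAction G X]
    (μ : Measure X) : ℝ≥0∞ :=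
  ⨅ (f : X → ℕ) (_ : Measurable f ∧ ∀ s : Set X, MeasurableSet s → ∃ t : Set X,
      @MeasurableSet X (MeasurableSpace.generateFrom
        {u : Set X | ∃ (g : G) (k : ℕ), u = (fun x : X => g • x) ⁻¹' (f ⁻¹' {k})}) t
      ∧ μ (symmDiff s t) = 0),
    ∑' k : ℕ, ENNReal.ofReal (Real.negMulLog (μ.real (f ⁻¹' {k})))

/-- the conditional Shannon entropy `H_μ(φ | m)` of a finite-valued function `φ` given a sub-sigma-algebra `m` -/
noncomputable def condEnt {X W : Type} [Fintype W] {mX : MeasurableSpace X} (μ : Measure X)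
    (m : MeasurableSpace X) (φ : X → W) : ℝ :=
  ∑ w : W, ∫ x, Real.negMulLog ((μ[(φ ⁻¹' {w}).indicator (fun _ => (1 : ℝ)) | m]) x) ∂μ

/-- the partition into the level sets of `f` is `K`-negligible over the sigma-algebra `m`: for every `η > 0` there
are a finite set `F` of at least `1 / η` group elements, at most one from each coset of `K`, and a finite
partition `γ` with `H(γ | m) ≤ η |F|`, such that all the translates `f (t x)`, `t ∈ F`, are measurable, up to null
sets, with respect to `m` and the translates of `γ` by the elements of `K` -/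
def Negligible {G : Type} [Group G] (K : Subgroup G) {X : Type} [MulAction G X] {mX : MeasurableSpace X}
    (μ : Measure X) (m : MeasurableSpace X) {k : ℕ} (f : X → Fin k) : Prop :=
  ∀ η : ℝ, 0 < η → ∃ F : Finset G, (∀ s ∈ F, ∀ t ∈ F, s * t⁻¹ ∈ K → s = t) ∧ 1 ≤ η * F.card ∧
    ∃ (l : ℕ) (γ : X → Fin l), Measurable[mX] γ ∧ condEnt μ m γ ≤ η * F.card ∧
      ∀ t ∈ F, ∀ i : Fin k, ∃ u : Set X,
        @MeasurableSet X (m ⊔ MeasurableSpace.generateFrom
          {v : Set X | ∃ g ∈ K, ∃ j : Fin l, v = (fun x : X => g • x) ⁻¹' (γ ⁻¹' {j})}) u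
        ∧ μ (symmDiff ((fun x : X => t • x) ⁻¹' (f ⁻¹' {i})) u) = 0

/-- the action of `G` on `(Y, ν)` has a factor in which almost every point has stabiliser `K` -/
def StabFactor {G : Type} [Group G] (K : Subgroup G) {Y : Type} [MulAction G Y]
    {mY : MeasurableSpace Y} (ν : Measure Y) : Prop :=
  ∃ (S : Type) (_ : MeasurableSpace S) (_ : StandardBorelSpace S) (_ : MulAction G S)
    (σ : Measure S) (θ : Y → S),
    (∀ g : G, MeasurePreserving (fun s : S => g • s) σ σ) ∧
    (∀ g : G, g ∈ K → σ {s : S | g • s ≠ s} = 0) ∧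
    (∀ g : G, g ∉ K → σ {s : S | g • s = s} = 0) ∧
    MeasurePreserving θ ν σ ∧ ∀ (g : G) (y : Y), θ (g • y) = g • θ y

/-- the space `X` is exhausted over the base `π : X → (Y, ν)` by negligible partitions: for every proper
`G`-invariant sub-sigma-algebra `Z` of `X` that contains the base and the null sets there are a subgroup `K` with
the property `StabFactor` for the base, a sigma-algebra `m` between the base and `Z`, and a finite partition that
is `K`-negligible over `m` but not measurable with respect to `Z` -/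
def Exhausted (G : Type) [Group G] {Y : Type} [MulAction G Y] {mY : MeasurableSpace Y} (ν : Measure Y)
    {X : Type} [MulAction G X] {mX : MeasurableSpace X} (μ : Measure X) (π : X → Y) : Prop :=
  ∀ Z : MeasurableSpace X, MeasurableSpace.comap π mY ≤ Z → Z ≤ mX →
    (∀ (g : G) (s : Set X), MeasurableSet[Z] s → MeasurableSet[Z] ((fun x : X => g • x) ⁻¹' s)) →
    (∀ s : Set X, MeasurableSet[mX] s → μ s = 0 → MeasurableSet[Z] s) → Z ≠ mX →
    ∃ K : Subgroup G, StabFactor K ν ∧
      ∃ m : MeasurableSpace X, MeasurableSpace.comap π mY ≤ m ∧ m ≤ Z ∧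
        ∃ (k : ℕ) (f : X → Fin k), Measurable[mX] f ∧ Negligible K μ m f ∧
          ∃ i, ¬ MeasurableSet[Z] (f ⁻¹' {i})

end Pool.Agent.Lib.MP_4c2a44_an
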