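import Mathlib

/-!
Shannon entropy of countable partitions: subadditivity, coarsening, countable joins of small partitions.
-/

open MeasureTheory Set Filter Topology
open scoped ENNReal

namespace Pool.Agent.Lib.MP_4c2a44_an

section Real

theorem nml_le {x q : ℝ} (hx : 0 ≤ x) (hq : 0 < q) :
    Real.negMulLog x ≤ x * (-Real.log q) + (q - x) := by
  rcases hx.eq_or_lt with rfl | hx
  · simp [hq.le]
  · have h := Real.log_le_sub_one_of_pos (div_pos hq hx)
    rw [Real.log_div hq.ne' hx.ne'] at h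
    have h2 : x * (Real.log q - Real.log x) ≤ x * (q / x - 1) := mul_le_mul_of_nonneg_left h hx.le
    have h3 : x * (q / x - 1) = q - x := by field_simp
    rw [h3] at h2
    unfold Real.negMulLog
    nlinarith

theorem nml_sqrt {x : ℝ} (hx : 0 ≤ x) : Real.negMulLog x ≤ 2 * Real.sqrt x := by
  rcases hx.eq_or_lt with rfl | hx
  · simp
  · have hs : 0 < Real.sqrt x := Real.sqrt_pos.2 hx
    have h := Real.log_le_sub_one_of_pos (inv_pos.2 hs)
    rw [Real.log_inv] at h
    have h1 : Real.log x = 2 * Real.log (Real.sqrt x) := by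
      rw [Real.log_sqrt hx.le]; ring
    have h2 : Real.sqrt x * Real.sqrt x = x := Real.mul_self_sqrt hx.le
    have h3 : x * (Real.sqrt x)⁻¹ = Real.sqrt x := by
      field_simp
      nlinarith
    unfold Real.negMulLog
    have h4 : x * (-Real.log (Real.sqrt x)) ≤ x * ((Real.sqrt x)⁻¹ - 1) :=
      mul_le_mul_of_nonneg_left h hx.le
    rw [mul_sub, h3] at h4
    rw [h1]
    nlinarith

end Real

section Ent

variable {X : Type} {mX : MeasurableSpace X} (μ : Measure X)

/-- Shannon entropy of the partition of `X` into the level sets of `f` -/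
noncomputable def ent (f : X → ℕ) : ℝ≥0∞ :=
  ∑' k : ℕ, ENNReal.ofReal (Real.negMulLog (μ.real (f ⁻¹' {k})))

variable {μ}

theorem ent_congr {f g : X → ℕ} (h : f =ᵐ[μ] g) : ent μ f = ent μ g := by
  unfold ent
  congr 1
  ext k
  have : μ.real (f ⁻¹' {k}) = μ.real (g ⁻¹' {k}) := by
    apply measureReal_congr
    filter_upwards [h] with x hx
    apply propext
    show f x = k ↔ g x = k
    rw [hx]
  rw [this]

variable [IsProbabilityMeasure μ]

theorem ent_pair {f g : X → ℕ} (hf : Measurable f) (hg : Measurable g) :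
    ent μ (fun x => Nat.pair (f x) (g x)) ≤ ent μ f + ent μ g := by
  set p : ℕ → ℝ := fun i => μ.real (f ⁻¹' {i}) with hp
  set q : ℕ → ℝ := fun j => μ.real (g ⁻¹' {j}) with hq
  set P : ℕ → ℕ → ℝ := fun i j => μ.real (f ⁻¹' {i} ∩ g ⁻¹' {j}) with hP
  have hpair : ∀ i j : ℕ, (fun x => Nat.pair (f x) (g x)) ⁻¹' {Nat.pair i j}
      = f ⁻¹' {i} ∩ g ⁻¹' {j} := by
    intro i j
    ext x
    simp [Nat.pair_eq_pair]
  have e1 : ent μ (fun x => Nat.pair (f x) (g x))
      = ∑' i, ∑' j, ENNReal.ofReal (Real.negMulLog (P i j)) := by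
    unfold ent
    rw [← (Nat.pairEquiv).tsum_eq]
    rw [← ENNReal.tsum_prod]
    congr 1
    ext ij
    rcases ij with ⟨i, j⟩
    show ENNReal.ofReal (Real.negMulLog (μ.real ((fun x => Nat.pair (f x) (g x)) ⁻¹'
      {Nat.pair i j}))) = _
    rw [hpair]
  have hmf : ∀ i, MeasurableSet (f ⁻¹' {i}) := fun i => hf (measurableSet_singleton i)
  have hmg : ∀ j, MeasurableSet (g ⁻¹' {j}) := fun j => hg (measurableSet_singleton j)
  have hPm : ∀ i j, ENNReal.ofReal (P i j) = μ (f ⁻¹' {i} ∩ g ⁻¹' {j}) := by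
    intro i j; simp [hP, measureReal_def]
  have hpm : ∀ i, ENNReal.ofReal (p i) = μ (f ⁻¹' {i}) := by
    intro i; simp [hp, measureReal_def]
  have hqm : ∀ j, ENNReal.ofReal (q j) = μ (g ⁻¹' {j}) := by
    intro j; simp [hq, measureReal_def]
  have rowsum : ∀ i, ∑' j, ENNReal.ofReal (P i j) = ENNReal.ofReal (p i) := by
    intro i
    simp_rw [hPm, hpm]
    have h1 := tsum_measure_preimage_singleton (μ := μ.restrict (f ⁻¹' {i})) (f := g)
      (s := Set.univ) Set.countable_univ (fun j _ => hmg j)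
    rw [Set.preimage_univ, Measure.restrict_apply_univ] at h1
    rw [← h1]
    rw [← tsum_univ (f := fun j => μ (f ⁻¹' {i} ∩ g ⁻¹' {j}))]
    congr 1
    ext j
    rw [Measure.restrict_apply (hmg j), Set.inter_comm]
  have colsum : ∀ j, ∑' i, ENNReal.ofReal (P i j) = ENNReal.ofReal (q j) := by
    intro j
    simp_rw [hPm, hqm]
    have h1 := tsum_measure_preimage_singleton (μ := μ.restrict (g ⁻¹' {j})) (f := f)
      (s := Set.univ) Set.countable_univ (fun i _ => hmf i)
    rw [Set.preimage_univ, Measure.restrict_apply_univ] at h1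
    rw [← h1]
    rw [← tsum_univ (f := fun i => μ (f ⁻¹' {i} ∩ g ⁻¹' {j}))]
    congr 1
    ext i
    rw [Measure.restrict_apply (hmf i)]
  have sump : ∑' i, ENNReal.ofReal (p i) = 1 := by
    simp_rw [hpm]
    have h1 := tsum_measure_preimage_singleton (μ := μ) (f := f)
      (s := Set.univ) Set.countable_univ (fun i _ => hmf i)
    rw [Set.preimage_univ, measure_univ] at h1
    rw [← h1, ← tsum_univ (f := fun i => μ (f ⁻¹' {i}))]
  have sumq : ∑' j, ENNReal.ofReal (q j) = 1 := by
    simp_rw [hqm]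
    have h1 := tsum_measure_preimage_singleton (μ := μ) (f := g)
      (s := Set.univ) Set.countable_univ (fun i _ => hmg i)
    rw [Set.preimage_univ, measure_univ] at h1
    rw [← h1, ← tsum_univ (f := fun i => μ (g ⁻¹' {i}))]
  have hp0 : ∀ i, 0 ≤ p i := fun i => measureReal_nonneg
  have hq0 : ∀ i, 0 ≤ q i := fun i => measureReal_nonneg
  have hP0 : ∀ i j, 0 ≤ P i j := fun i j => measureReal_nonneg
  have hp1 : ∀ i, p i ≤ 1 := fun i => measureReal_le_one
  have hq1 : ∀ i, q i ≤ 1 := fun i => measureReal_le_one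
  have hPp : ∀ i j, P i j ≤ p i := fun i j => measureReal_mono Set.inter_subset_left
  have hPq : ∀ i j, P i j ≤ q j := fun i j => measureReal_mono Set.inter_subset_right
  have key : ∀ i j, ENNReal.ofReal (Real.negMulLog (P i j)) + ENNReal.ofReal (P i j)
      ≤ ENNReal.ofReal (P i j) * ENNReal.ofReal (-Real.log (p i))
        + ENNReal.ofReal (P i j) * ENNReal.ofReal (-Real.log (q j))
        + ENNReal.ofReal (p i) * ENNReal.ofReal (q j) := by
    intro i j
    rcases (hP0 i j).eq_or_lt with h0 | h0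
    · rw [← h0]; simp
    · have hpi : 0 < p i := h0.trans_le (hPp i j)
      have hqj : 0 < q j := h0.trans_le (hPq i j)
      have a1 : 0 ≤ -Real.log (p i) := by
        have := Real.log_nonpos (hp0 i) (hp1 i); linarith
      have a2 : 0 ≤ -Real.log (q j) := by
        have := Real.log_nonpos (hq0 j) (hq1 j); linarith
      have h1 := nml_le (hP0 i j) (mul_pos hpi hqj)
      rw [Real.log_mul hpi.ne' hqj.ne'] at h1
      rw [← ENNReal.ofReal_mul (hP0 i j), ← ENNReal.ofReal_mul (hP0 i j),
        ← ENNReal.ofReal_mul (hp0 i), ← ENNReal.ofReal_add (mul_nonneg (hP0 i j) a1)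
          (mul_nonneg (hP0 i j) a2), ← ENNReal.ofReal_add (add_nonneg (mul_nonneg (hP0 i j) a1)
          (mul_nonneg (hP0 i j) a2)) (mul_nonneg (hp0 i) (hq0 j)),
        ← ENNReal.ofReal_add (Real.negMulLog_nonneg (hP0 i j) ((hPp i j).trans (hp1 i))) (hP0 i j)]
      apply ENNReal.ofReal_le_ofReal
      nlinarith
  have total := ENNReal.tsum_le_tsum (fun i => ENNReal.tsum_le_tsum (fun j => key i j))
  have hent : ∀ (r : ℕ → ℝ), (∀ i, 0 ≤ r i) → ∑' i, ENNReal.ofReal (r i) *
      ENNReal.ofReal (-Real.log (r i)) = ∑' i, ENNReal.ofReal (Real.negMulLog (r i)) := by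
    intro r hr
    congr 1
    ext i
    rw [← ENNReal.ofReal_mul (hr i)]
    congr 1
    unfold Real.negMulLog
    ring
  have s1 : ∑' i, ∑' j, ENNReal.ofReal (P i j) * ENNReal.ofReal (-Real.log (p i)) = ent μ f := by
    have : ∀ i, ∑' j, ENNReal.ofReal (P i j) * ENNReal.ofReal (-Real.log (p i))
        = ENNReal.ofReal (p i) * ENNReal.ofReal (-Real.log (p i)) := by
      intro i
      rw [ENNReal.tsum_mul_right, rowsum]
    simp_rw [this]
    rw [hent p hp0]
    rfl
  have s2 : ∑' i, ∑' j, ENNReal.ofReal (P i j) * ENNReal.ofReal (-Real.log (q j)) = ent μ g := by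
    rw [ENNReal.tsum_comm]
    have : ∀ j, ∑' i, ENNReal.ofReal (P i j) * ENNReal.ofReal (-Real.log (q j))
        = ENNReal.ofReal (q j) * ENNReal.ofReal (-Real.log (q j)) := by
      intro j
      rw [ENNReal.tsum_mul_right, colsum]
    simp_rw [this]
    rw [hent q hq0]
    rfl
  have s3 : ∑' i, ∑' j, ENNReal.ofReal (p i) * ENNReal.ofReal (q j) = 1 := by
    simp_rw [ENNReal.tsum_mul_left, sumq, mul_one]
    exact sump
  have s4 : ∑' i, ∑' j, ENNReal.ofReal (P i j) = 1 := by
    simp_rw [rowsum]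
    exact sump
  simp_rw [ENNReal.tsum_add] at total
  rw [s1, s2, s3, s4] at total
  rw [e1]
  exact (ENNReal.add_le_add_iff_right ENNReal.one_ne_top).1 total

theorem ent_comp {f : X → ℕ} (hf : Measurable f) (h : ℕ → ℕ) :
    ent μ (fun x => h (f x)) ≤ ent μ f := by
  have hmf : ∀ i, MeasurableSet (f ⁻¹' {i}) := fun i => hf (measurableSet_singleton i)
  have hmeas : ∀ k, μ ((fun x => h (f x)) ⁻¹' {k})
      = ∑' i, if h i = k then μ (f ⁻¹' {i}) else 0 := by
    intro k
    have h1 := tsum_measure_preimage_singleton (μ := μ) (f := f)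
      (s := {i | h i = k}) (Set.to_countable _) (fun i _ => hmf i)
    have h2 : (fun x => h (f x)) ⁻¹' {k} = f ⁻¹' {i | h i = k} := rfl
    rw [h2, ← h1, tsum_subtype {i | h i = k} (fun i => μ (f ⁻¹' {i}))]
    congr 1
    ext i
    simp [Set.indicator]
  have key : ∀ k, ENNReal.ofReal (Real.negMulLog (μ.real ((fun x => h (f x)) ⁻¹' {k})))
      ≤ ∑' i, if h i = k then ENNReal.ofReal (Real.negMulLog (μ.real (f ⁻¹' {i}))) else 0 := by
    intro k
    set a := μ.real ((fun x => h (f x)) ⁻¹' {k}) with ha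
    have ha0 : 0 ≤ a := measureReal_nonneg
    have ha1 : a ≤ 1 := measureReal_le_one
    have hl : 0 ≤ -Real.log a := by have := Real.log_nonpos ha0 ha1; linarith
    have e1 : ENNReal.ofReal (Real.negMulLog a) = ENNReal.ofReal a * ENNReal.ofReal (-Real.log a) := by
      rw [← ENNReal.ofReal_mul ha0]
      congr 1
      unfold Real.negMulLog
      ring
    have e2 : ENNReal.ofReal a = μ ((fun x => h (f x)) ⁻¹' {k}) := by
      simp [ha, measureReal_def]
    rw [e1, e2, hmeas, ← ENNReal.tsum_mul_right]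
    apply ENNReal.tsum_le_tsum
    intro i
    split_ifs with hi
    · have hsub : f ⁻¹' {i} ⊆ (fun x => h (f x)) ⁻¹' {k} := by
        intro x hx
        have hx' : f x = i := hx
        show h (f x) = k
        rw [hx', hi]
      have hpa : μ.real (f ⁻¹' {i}) ≤ a := measureReal_mono hsub
      have hp0 : 0 ≤ μ.real (f ⁻¹' {i}) := measureReal_nonneg
      have e3 : μ (f ⁻¹' {i}) = ENNReal.ofReal (μ.real (f ⁻¹' {i})) := by
        simp [measureReal_def]
      rw [e3, ← ENNReal.ofReal_mul hp0]
      apply ENNReal.ofReal_le_ofReal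
      rcases hp0.eq_or_lt with h0 | h0
      · rw [← h0]; simp
      · have := Real.log_le_log h0 hpa
        unfold Real.negMulLog
        nlinarith
    · simp
  calc ent μ (fun x => h (f x)) ≤ ∑' k, ∑' i, (if h i = k then
        ENNReal.ofReal (Real.negMulLog (μ.real (f ⁻¹' {i}))) else 0) := ENNReal.tsum_le_tsum key
    _ = ∑' i, ∑' k, (if h i = k then
        ENNReal.ofReal (Real.negMulLog (μ.real (f ⁻¹' {i}))) else 0) := ENNReal.tsum_comm
    _ = ent μ f := by
      unfold ent
      congr 1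
      ext i
      rw [tsum_eq_single (h i)]
      · simp
      · intro k hk
        rw [if_neg (fun h' => hk h'.symm)]

theorem ent_zero : ent μ (fun _ => 0) = 0 := by
  unfold ent
  rw [ENNReal.tsum_eq_zero]
  intro k
  by_cases hk : k = 0
  · subst hk
    have : (fun _ : X => 0) ⁻¹' {0} = (Set.univ : Set X) := by ext; simp
    rw [this]; simp
  · have : (fun _ : X => 0) ⁻¹' {k} = (∅ : Set X) := by
      ext x; simp; exact fun h => hk h.symm
    rw [this]; simp

omit [IsProbabilityMeasure μ] in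
theorem ent_le_of_tendsto {J : ℕ → X → ℕ} {f : X → ℕ} {C : ℝ≥0∞}
    (h : ∀ k, Tendsto (fun n => μ.real (J n ⁻¹' {k})) atTop (𝓝 (μ.real (f ⁻¹' {k}))))
    (hC : ∀ n, ent μ (J n) ≤ C) : ent μ f ≤ C := by
  unfold ent
  rw [ENNReal.tsum_eq_iSup_sum]
  apply iSup_le
  intro T
  have ht : Tendsto (fun n => ∑ k ∈ T, ENNReal.ofReal (Real.negMulLog (μ.real (J n ⁻¹' {k}))))
      atTop (𝓝 (∑ k ∈ T, ENNReal.ofReal (Real.negMulLog (μ.real (f ⁻¹' {k}))))) := by
    apply tendsto_finsetSum
    intro k _
    exact (ENNReal.continuous_ofReal.tendsto _).comp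
      ((Real.continuous_negMulLog.tendsto _).comp (h k))
  exact le_of_tendsto' ht (fun n => (ENNReal.sum_le_tsum T).trans (hC n))

/-- the list of the pairs `(i, β i x)`, `i < n`, with `β i x ≠ 0` -/
def lst (β : ℕ → X → ℕ) : ℕ → X → List (ℕ × ℕ)
  | 0, _ => []
  | n + 1, x => if β n x = 0 then lst β n x else (n, β n x) :: lst β n x

/-- look up the entry `i` -/
def look (i : ℕ) : List (ℕ × ℕ) → ℕ
  | [] => 0
  | p :: l => if p.1 = i then p.2 else look i l

theorem look_lst (β : ℕ → X → ℕ) (x : X) (i : ℕ) : ∀ n, i < n → look i (lst β n x) = β i x := by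
  have h0 : ∀ n, n ≤ i → look i (lst β n x) = 0 := by
    intro n
    induction n with
    | zero => intro _; rfl
    | succ n ih =>
      intro hn
      unfold lst
      split_ifs with h
      · exact ih (by omega)
      · unfold look
        rw [if_neg (by show n ≠ i; omega)]
        exact ih (by omega)
  intro n
  induction n with
  | zero => intro h; omega
  | succ n ih =>
    intro hn
    unfold lst
    split_ifs with h
    · rcases Nat.lt_succ_iff_lt_or_eq.1 hn with h' | h'
      · exact ih h'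
      · subst h'
        rw [h0 i le_rfl, h]
    · unfold look
      rcases Nat.lt_succ_iff_lt_or_eq.1 hn with h' | h'
      · rw [if_neg (by show n ≠ i; omega)]
        exact ih h'
      · subst h'
        simp

theorem lst_const (β : ℕ → X → ℕ) (x : X) (N : ℕ) (hN : ∀ i ≥ N, β i x = 0) :
    ∀ n ≥ N, lst β n x = lst β N x := by
  intro n hn
  induction n, hn using Nat.le_induction with
  | base => rfl
  | succ n hn ih =>
    rw [← ih]
    show (if β n x = 0 then lst β n x else (n, β n x) :: lst β n x) = lst β n x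
    rw [if_pos (hN n hn)]

/-- code of the list -/
def cod (β : ℕ → X → ℕ) (n : ℕ) (x : X) : ℕ := Encodable.encode (lst β n x)

/-- decoder of the entry `i` -/
def dcd (i k : ℕ) : ℕ := look i ((Encodable.decode (α := List (ℕ × ℕ)) k).getD [])

theorem dcd_cod (β : ℕ → X → ℕ) (x : X) (i n : ℕ) (h : i < n) : dcd i (cod β n x) = β i x := by
  unfold dcd cod
  rw [Encodable.encodek]
  exact look_lst β x i n h

/-- one step -/
def stp (n k : ℕ) : ℕ :=
  if (Nat.unpair k).2 = 0 then (Nat.unpair k).1 else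
    Encodable.encode ((n, (Nat.unpair k).2) ::
      ((Encodable.decode (α := List (ℕ × ℕ)) (Nat.unpair k).1).getD []))

theorem cod_succ (β : ℕ → X → ℕ) (n : ℕ) (x : X) :
    cod β (n + 1) x = stp n (Nat.pair (cod β n x) (β n x)) := by
  unfold stp
  rw [Nat.unpair_pair]
  show Encodable.encode (if β n x = 0 then lst β n x else (n, β n x) :: lst β n x) = _
  by_cases h : β n x = 0
  · rw [if_pos h, if_pos h]; rfl
  · rw [if_neg h, if_neg h]
    unfold cod
    rw [Encodable.encodek]
    rfl

omit [IsProbabilityMeasure μ] in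
theorem cod_meas {β : ℕ → X → ℕ} (hβ : ∀ i, Measurable (β i)) : ∀ n, Measurable (cod β n) := by
  intro n
  induction n with
  | zero => exact measurable_const
  | succ n ih =>
    have : cod β (n + 1) = fun x => stp n (Nat.pair (cod β n x) (β n x)) := by
      ext x; exact cod_succ β n x
    rw [this]
    have h2 : Measurable (fun q : ℕ × ℕ => stp n (Nat.pair q.1 q.2)) := measurable_of_countable _
    exact h2.comp (ih.prodMk (hβ n))

theorem cod_ent {β : ℕ → X → ℕ} (hβ : ∀ i, Measurable (β i)) (n : ℕ) :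
    ent μ (cod β n) ≤ ∑' i, ent μ (β i) := by
  have h : ∀ n, ent μ (cod β n) ≤ ∑ i ∈ Finset.range n, ent μ (β i) := by
    intro n
    induction n with
    | zero =>
      have : cod β 0 = fun _ : X => Encodable.encode ([] : List (ℕ × ℕ)) := rfl
      rw [this, Encodable.encode_list_nil, ent_zero]
      simp
    | succ n ih =>
      have h1 : cod β (n + 1) = fun x => stp n (Nat.pair (cod β n x) (β n x)) := by
        ext x; exact cod_succ β n x
      rw [h1, Finset.sum_range_succ]
      have h2 : Measurable (fun q : ℕ × ℕ => Nat.pair q.1 q.2) := measurable_of_countable _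
      have h3 := ent_comp (μ := μ) (f := fun x => Nat.pair (cod β n x) (β n x))
        (h2.comp ((cod_meas hβ n).prodMk (hβ n))) (stp n)
      exact h3.trans ((ent_pair (cod_meas hβ n) (hβ n)).trans (by gcongr))
  exact (h n).trans (ENNReal.sum_le_tsum _)

open Classical in
/-- countable join of partitions which are eventually trivial at almost every point -/
theorem exists_join {β : ℕ → X → ℕ} (hβ : ∀ i, Measurable (β i))
    (hfin : ∀ᵐ x ∂μ, ∃ N, ∀ i ≥ N, β i x = 0) :
    ∃ J : X → ℕ, Measurable J ∧ ent μ J ≤ ∑' i, ent μ (β i) ∧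
      μ {x | J x ≠ 0} ≤ ∑' i, μ {x | β i x ≠ 0} ∧ ∀ i, (fun x => dcd i (J x)) =ᵐ[μ] β i := by
  set Good : Set X := {x | ∃ N, ∀ i ≥ N, β i x = 0} with hGood
  have hGm : MeasurableSet Good := by
    have : Good = ⋃ N, ⋂ i, ⋂ (_ : i ≥ N), (β i) ⁻¹' {0} := by
      ext x; simp [hGood]
    rw [this]
    exact MeasurableSet.iUnion fun N => MeasurableSet.iInter fun i => MeasurableSet.iInter fun _ =>
      hβ i (measurableSet_singleton 0)
  set J : X → ℕ := fun x => if hx : x ∈ Good then cod β (Nat.find hx) x else 0 with hJ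
  have hJc : ∀ x ∈ Good, ∃ N, ∀ n ≥ N, cod β n x = J x := by
    intro x hx
    refine ⟨Nat.find hx, fun n hn => ?_⟩
    rw [hJ]
    simp only [hx, dif_pos]
    unfold cod
    rw [lst_const β x (Nat.find hx) (Nat.find_spec hx) n hn]
  have hlim : ∀ x, Tendsto (fun n => if x ∈ Good then cod β n x else 0) atTop (𝓝 (J x)) := by
    intro x
    by_cases hx : x ∈ Good
    · obtain ⟨N, hN⟩ := hJc x hx
      apply tendsto_atTop_of_eventually_const (i₀ := N)
      intro n hn
      rw [if_pos hx, hN n hn]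
    · have : J x = 0 := by rw [hJ]; simp [hx]
      rw [this]
      simp only [hx, if_false]
      exact tendsto_const_nhds
  have hJm : Measurable J := by
    refine measurable_of_tendsto_metrizable
      (f := fun n x => if x ∈ Good then cod β n x else 0) ?_ (tendsto_pi_nhds.2 hlim)
    intro n
    exact Measurable.ite hGm (cod_meas hβ n) measurable_const
  refine ⟨J, hJm, ?_, ?_, ?_⟩
  · refine ent_le_of_tendsto (J := cod β) ?_ (cod_ent hβ)
    intro k
    have h1 := tendsto_measure_of_ae_tendsto_indicator (μ := μ) (A := J ⁻¹' {k})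
      (As := fun n => cod β n ⁻¹' {k}) (B := Set.univ) atTop (hJm (measurableSet_singleton k))
      (fun n => cod_meas hβ n (measurableSet_singleton k)) MeasurableSet.univ
      (measure_ne_top _ _) (Eventually.of_forall fun _ => Set.subset_univ _) (by
        filter_upwards [hfin] with x hx
        obtain ⟨N, hN⟩ := hJc x hx
        filter_upwards [eventually_ge_atTop N] with n hn
        show cod β n x = k ↔ J x = k
        rw [hN n hn])
    exact (ENNReal.tendsto_toReal (measure_ne_top _ _)).comp h1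
  · have hsub : {x | J x ≠ 0} ⊆ ⋃ i, {x | β i x ≠ 0} := by
      intro x hx
      by_contra hcon
      apply hx
      have hall : ∀ i, β i x = 0 := by
        intro i
        by_contra h'
        exact hcon (Set.mem_iUnion.2 ⟨i, h'⟩)
      have hxG : x ∈ Good := ⟨0, fun i _ => hall i⟩
      obtain ⟨N, hN⟩ := hJc x hxG
      rw [← hN N le_rfl]
      unfold cod
      rw [lst_const β x 0 (fun i _ => hall i) N (Nat.zero_le _)]
      exact Encodable.encode_list_nil
    exact (measure_mono hsub).trans (measure_iUnion_le _)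
  · intro i
    filter_upwards [hfin] with x hx
    obtain ⟨N, hN⟩ := hJc x hx
    rw [← hN (max N (i + 1)) (le_max_left _ _)]
    exact dcd_cod β x i _ (lt_of_lt_of_le (Nat.lt_succ_self i) (le_max_right _ _))

/-- `β` is nonzero only on a set of measure `≤ ε` and has entropy `≤ ε` -/
structure Small (μ : Measure X) (ε : ℝ≥0∞) (β : X → ℕ) : Prop where
  meas : Measurable β
  supp : μ {x | β x ≠ 0} ≤ ε
  en : ent μ β ≤ ε

theorem small_join {β : ℕ → X → ℕ} {e : ℕ → ℝ≥0∞} {ε : ℝ≥0∞} (hβ : ∀ i, Small μ (e i) (β i))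
    (he : ∑' i, e i ≤ ε) (hε : ε ≠ ∞) :
    ∃ J : X → ℕ, Small μ ε J ∧ ∀ i, (fun x => dcd i (J x)) =ᵐ[μ] β i := by
  have hsum : ∑' i, μ {x | β i x ≠ 0} ≤ ε := (ENNReal.tsum_le_tsum fun i => (hβ i).supp).trans he
  have hfin : ∀ᵐ x ∂μ, ∃ N, ∀ i ≥ N, β i x = 0 := by
    have h1 := ae_eventually_notMem (μ := μ) (s := fun i => {x | β i x ≠ 0})
      (ne_top_of_le_ne_top hε hsum)
    filter_upwards [h1] with x hx
    obtain ⟨N, hN⟩ := eventually_atTop.1 hx
    exact ⟨N, fun i hi => by simpa using hN i hi⟩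
  obtain ⟨J, hJm, hJe, hJs, hJd⟩ := exists_join (fun i => (hβ i).meas) hfin
  exact ⟨J, ⟨hJm, hJs.trans hsum, hJe.trans ((ENNReal.tsum_le_tsum fun i => (hβ i).en).trans he)⟩,
    hJd⟩

end Ent

end Pool.Agent.Lib.MP_4c2a44_an
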