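import Pool.Agent.Lib.MP_4c2a44_an.Mod

/-!
Rokhlin entropy does not increase along a tower of extensions exhausted by negligible partitions.
-/

open MeasureTheory Set Filter Topology
open scoped ENNReal

namespace Pool.Agent.Lib.MP_4c2a44_an

section Main

variable {G X Y : Type} [Group G] [MulAction G X] [MulAction G Y] {mY : MeasurableSpace Y}
  {m0 m1 : MeasurableSpace X} {mX : MeasurableSpace X}
  {μ : Measure X} [IsProbabilityMeasure μ] {ν : Measure Y} [IsProbabilityMeasure ν]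

theorem outAlg_mono (hμ : ∀ g : G, MeasurePreserving (fun x : X => g • x) μ μ) (h : m0 ≤ m1) :
    outAlg hμ m0 ≤ outAlg hμ m1 := by
  rintro s ⟨h1, h2⟩
  refine ⟨h1, fun ε hε => ?_⟩
  obtain ⟨β, hβ, hs⟩ := h2 ε hε
  exact ⟨β, hβ, cl_mono (sup_le_sup_right h _) _ hs⟩

theorem inv_comap (hact : ∀ g : G, Measurable (fun y : Y => g • y)) {π : X → Y}
    (heq : ∀ (g : G) (x : X), π (g • x) = g • π x) : Inv G (mY.comap π) := by
  rintro g _ ⟨t, ht, rfl⟩
  refine ⟨(fun y : Y => g • y) ⁻¹' t, hact g ht, ?_⟩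
  ext x
  simp [heq]

/-- a negligible partition belongs to the outer Pinsker algebra -/
theorem neg_out (hμ : ∀ g : G, MeasurePreserving (fun x : X => g • x) μ μ)
    (hact : ∀ g : G, Measurable (fun y : Y => g • y))
    {π : X → Y} (hπ : MeasurePreserving π μ ν) (heq : ∀ (g : G) (x : X), π (g • x) = g • π x)
    (hm0 : mY.comap π ≤ m0) (hm : m0 ≤ outAlg hμ (mY.comap π)) {K : Subgroup G} (hK : StabFactor K ν)
    {k : ℕ} {f : X → Fin k} (hf : Measurable f) (hz : Negligible K μ m0 f) (i : Fin k) :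
    MeasurableSet[outAlg hμ (mY.comap π)] (f ⁻¹' {i}) := by
  obtain ⟨S, mS, hS, aS, σ, θ, h1, h2, h3, h4, h5⟩ := hK
  have : IsProbabilityMeasure σ := by
    rw [← h4.map_eq]
    exact Measure.isProbabilityMeasure_map h4.measurable.aemeasurable
  refine mod_step (τ := fun x => θ (π x)) hμ h1 h2 h3 (h4.comp hπ) ?_ (hm.trans (outAlg_le hμ))
    (inv_comap hact heq) ?_ hm0 (fun s hs => hm s hs) hf hz i
  · intro g x
    show θ (π (g • x)) = g • θ (π x)
    rw [heq, h5]
  · rintro _ ⟨t, ht, rfl⟩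
    exact ⟨θ ⁻¹' t, h4.measurable ht, rfl⟩

theorem out_eq (hμ : ∀ g : G, MeasurePreserving (fun x : X => g • x) μ μ)
    (hact : ∀ g : G, Measurable (fun y : Y => g • y))
    {π : X → Y} (hπ : MeasurePreserving π μ ν) (heq : ∀ (g : G) (x : X), π (g • x) = g • π x)
    (hex : Exhausted G ν μ π) : outAlg hμ (mY.comap π) = mX := by
  by_contra hne
  obtain ⟨K, hK, m, h0m, hmZ, k, f, hf, hz, i, hi⟩ := hex (outAlg hμ (mY.comap π))
    (le_outAlg hμ hπ.measurable.comap_le) (outAlg_le hμ)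
    (outAlg_inv hμ (inv_comap hact heq)) (fun s hs h => outAlg_null hμ hs h) hne
  exact hi (neg_out hμ hact hπ heq h0m hmZ hK hf hz i)

omit [IsProbabilityMeasure ν] in
theorem rok_le [MeasurableSpace.CountablyGenerated X]
    (hμ : ∀ g : G, MeasurePreserving (fun x : X => g • x) μ μ)
    {π : X → Y} (hπ : MeasurePreserving π μ ν) (heq : ∀ (g : G) (x : X), π (g • x) = g • π x)
    (hout : outAlg hμ (mY.comap π) = mX) : rok G μ ≤ rok G ν := by
  unfold rok
  refine le_iInf fun α => le_iInf fun hα => ?_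
  obtain ⟨hαm, hαg⟩ := hα
  apply ENNReal.le_of_forall_pos_le_add
  intro ε hε _
  obtain ⟨β, hβ, hgen⟩ := out_all hμ hout (ε := (ε : ℝ≥0∞)) (by exact_mod_cast hε)
  set J : X → ℕ := fun x => Nat.pair (α (π x)) (β x) with hJ
  have hJm : Measurable J := by
    have h2 : Measurable (fun q : ℕ × ℕ => Nat.pair q.1 q.2) := measurable_of_countable _
    exact h2.comp ((hαm.comp hπ.measurable).prodMk hβ.meas)
  have hJ1 : gen G (fun x => α (π x)) ≤ cl μ (gen G J) :=
    gen_le_of_ae (d := fun n => (Nat.unpair n).1) hμ (Eventually.of_forall fun x => by simp [hJ])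
  have hJ2 : gen G β ≤ cl μ (gen G J) :=
    gen_le_of_ae (d := fun n => (Nat.unpair n).2) hμ (Eventually.of_forall fun x => by simp [hJ])
  have hbase : mY.comap π ≤ cl μ (gen G J) := by
    rintro _ ⟨t, ht, rfl⟩
    obtain ⟨t', ht', hs⟩ := hαg t ht
    have h1 : MeasurableSet[gen G (fun x => α (π x))] (π ⁻¹' t') := by
      have h2 : (gen G α).comap π ≤ gen G (fun x => α (π x)) := by
        unfold gen
        rw [MeasurableSpace.comap_generateFrom]
        apply MeasurableSpace.generateFrom_le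
        rintro _ ⟨_, ⟨h, k, rfl⟩, rfl⟩
        apply MeasurableSpace.measurableSet_generateFrom
        refine ⟨h, k, ?_⟩
        ext x
        simp [heq]
      exact h2 _ ⟨t', ht', rfl⟩
    refine cl_ae (hJ1 _ h1) ?_
    rw [← measure_symmDiff_eq_zero_iff, ← Set.preimage_symmDiff]
    exact hπ.quasiMeasurePreserving.preimage_null hs
  have hJg : ∀ s : Set X, MeasurableSet s → ∃ t : Set X,
      @MeasurableSet X (MeasurableSpace.generateFrom
        {u : Set X | ∃ (g : G) (k : ℕ), u = (fun x : X => g • x) ⁻¹' (J ⁻¹' {k})}) t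
      ∧ μ (symmDiff s t) = 0 := fun s hs => cl_le (sup_le hbase hJ2) s (hgen s hs)
  refine (iInf₂_le (f := fun (f : X → ℕ) (_ : Measurable f ∧ ∀ s : Set X, MeasurableSet s → ∃ t : Set X,
      @MeasurableSet X (MeasurableSpace.generateFrom
        {u : Set X | ∃ (g : G) (k : ℕ), u = (fun x : X => g • x) ⁻¹' (f ⁻¹' {k})}) t
      ∧ μ (symmDiff s t) = 0) =>
    ∑' k : ℕ, ENNReal.ofReal (Real.negMulLog (μ.real (f ⁻¹' {k})))) J ⟨hJm, hJg⟩).trans ?_
  refine (ent_pair (μ := μ) (hαm.comp hπ.measurable) hβ.meas).trans ?_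
  refine add_le_add (le_of_eq ?_) hβ.en
  unfold ent
  congr 1
  ext k
  congr 2
  exact hπ.measureReal_preimage (hαm (measurableSet_singleton k)).nullMeasurableSet

end Main

section Tower

variable {G : Type} [Group G] {X : Type} [MeasurableSpace X] [StandardBorelSpace X] [MulAction G X]
    {μ : Measure X} [IsProbabilityMeasure μ]
    {Y : ℕ → Type} [∀ n, MeasurableSpace (Y n)] [∀ n, StandardBorelSpace (Y n)]
    [∀ n, MulAction G (Y n)]
    {ν : ∀ n, Measure (Y n)} [∀ n, IsProbabilityMeasure (ν n)]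
    {p : ∀ n, X → Y n} {q : ∀ n, Y (n + 1) → Y n}

omit [StandardBorelSpace X] [∀ n, StandardBorelSpace (Y n)] [∀ n, MulAction G (Y n)] in
theorem comap_mono_tower (hq : ∀ n, Measurable (q n)) (hpq : ∀ (n : ℕ) (x : X), p n x = q n (p (n + 1) x))
    {N n : ℕ} (h : N ≤ n) : MeasurableSpace.comap (p N) inferInstance
      ≤ MeasurableSpace.comap (p n) (inferInstance : MeasurableSpace (Y n)) := by
  induction n, h using Nat.le_induction with
  | base => exact le_rfl
  | succ n _ ih =>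
    refine ih.trans ?_
    rintro _ ⟨t, ht, rfl⟩
    refine ⟨q n ⁻¹' t, hq n ht, ?_⟩
    ext x
    show q n (p (n + 1) x) ∈ t ↔ p n x ∈ t
    rw [hpq n x]

theorem tower_of_out
    (hμ : ∀ g : G, MeasurePreserving (fun x : X => g • x) μ μ)
    (hp : ∀ n, MeasurePreserving (p n) μ (ν n))
    (hq : ∀ n, MeasurePreserving (q n) (ν (n + 1)) (ν n))
    (hpe : ∀ (n : ℕ) (g : G) (x : X), p n (g • x) = g • p n x)
    (hpq : ∀ (n : ℕ) (x : X), p n x = q n (p (n + 1) x)) (N : ℕ)
    (hout : outAlg hμ (MeasurableSpace.comap (p N) inferInstance) = (inferInstance : MeasurableSpace X)) :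
    (∀ n, N ≤ n → rok G μ ≤ rok G (ν n)) ∧
      rok G μ ≤ Filter.limsup (fun n : ℕ => rok G (ν n)) Filter.atTop := by
  have h1 : ∀ n, N ≤ n → rok G μ ≤ rok G (ν n) := by
    intro n hn
    refine rok_le hμ (hp n) (hpe n) (le_antisymm (outAlg_le hμ) ?_)
    exact hout.ge.trans (outAlg_mono hμ (comap_mono_tower (fun n => (hq n).measurable) hpq hn))
  refine ⟨h1, ?_⟩
  calc rok G μ ≤ Filter.liminf (fun n : ℕ => rok G (ν n)) Filter.atTop :=
        Filter.le_liminf_of_le (by isBoundedDefault) (Filter.eventually_atTop.2 ⟨N, h1⟩)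
    _ ≤ _ := Filter.liminf_le_limsup (by isBoundedDefault) (by isBoundedDefault)

theorem tower_result
    (hμ : ∀ g : G, MeasurePreserving (fun x : X => g • x) μ μ)
    (hν : ∀ (n : ℕ) (g : G), MeasurePreserving (fun y : Y n => g • y) (ν n) (ν n))
    (hp : ∀ n, MeasurePreserving (p n) μ (ν n))
    (hq : ∀ n, MeasurePreserving (q n) (ν (n + 1)) (ν n))
    (hpe : ∀ (n : ℕ) (g : G) (x : X), p n (g • x) = g • p n x)
    (hpq : ∀ (n : ℕ) (x : X), p n x = q n (p (n + 1) x)) (N : ℕ)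
    (hex : Exhausted G (ν N) μ (p N)) :
    (∀ n, N ≤ n → rok G μ ≤ rok G (ν n)) ∧
      rok G μ ≤ Filter.limsup (fun n : ℕ => rok G (ν n)) Filter.atTop :=
  tower_of_out hμ hp hq hpe hpq N (out_eq hμ (fun g => (hν N g).measurable) (hp N) (hpe N) hex)

end Tower

end Pool.Agent.Lib.MP_4c2a44_an
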