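import Pool.Agent.Lib.MP_4c2a44_an.Step

/-!
The main step: a negligible partition over an algebra contained in the outer Pinsker algebra belongs to it.
-/

open MeasureTheory Set Filter Topology
open scoped ENNReal

namespace Pool.Agent.Lib.MP_4c2a44_an

section Gen

variable {X : Type}

/-- a set of `m ⊔ m'` belongs to the algebra generated by countably many sets of `m` and `m'` -/
theorem sup_countable {m m' : MeasurableSpace X} {s : Set X} (hs : MeasurableSet[m ⊔ m'] s) :
    ∃ a : ℕ → Set X, (∀ n, MeasurableSet[m] (a n)) ∧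
      MeasurableSet[MeasurableSpace.generateFrom (Set.range a) ⊔ m'] s := by
  let T : MeasurableSpace X :=
    { MeasurableSet' := fun s => ∃ a : ℕ → Set X, (∀ n, MeasurableSet[m] (a n)) ∧
        MeasurableSet[MeasurableSpace.generateFrom (Set.range a) ⊔ m'] s
      measurableSet_empty := ⟨fun _ => ∅, fun _ => @MeasurableSet.empty _ m,
        @MeasurableSet.empty _ (MeasurableSpace.generateFrom (Set.range fun _ : ℕ => (∅ : Set X)) ⊔ m')⟩
      measurableSet_compl := fun s ⟨a, h1, h2⟩ => ⟨a, h1, h2.compl⟩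
      measurableSet_iUnion := by
        intro f hf
        choose a h1 h2 using hf
        refine ⟨fun n => a (Nat.unpair n).1 (Nat.unpair n).2, fun n => h1 _ _, MeasurableSet.iUnion fun i => ?_⟩
        refine (sup_le_sup_right (MeasurableSpace.generateFrom_mono ?_) m') _ (h2 i)
        rintro _ ⟨j, rfl⟩
        exact ⟨Nat.pair i j, by simp⟩ }
  have h1 : m ≤ T := by
    intro s hs
    exact ⟨fun _ => s, fun _ => hs, (le_sup_left : MeasurableSpace.generateFrom _ ≤ _) _
      (MeasurableSpace.measurableSet_generateFrom ⟨0, rfl⟩)⟩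
  have h2 : m' ≤ T := by
    intro s hs
    exact ⟨fun _ => ∅, fun _ => @MeasurableSet.empty _ m, (le_sup_right : m' ≤ _) _ hs⟩
  exact (sup_le h1 h2) s hs

theorem trace {M : MeasurableSpace X} {D : Set X} (hD : MeasurableSet[M] D) {C : Set (Set X)}
    (hC : ∀ v ∈ C, MeasurableSet[M] (v ∩ D)) {s : Set X}
    (hs : MeasurableSet[MeasurableSpace.generateFrom C] s) : MeasurableSet[M] (s ∩ D) := by
  let T : MeasurableSpace X :=
    { MeasurableSet' := fun s => MeasurableSet[M] (s ∩ D)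
      measurableSet_empty := by rw [Set.empty_inter]; exact @MeasurableSet.empty _ M
      measurableSet_compl := by
        intro s hs
        have : sᶜ ∩ D = D \ (s ∩ D) := by
          ext x
          simp only [Set.mem_inter_iff, Set.mem_compl_iff, Set.mem_sdiff, not_and]
          tauto
        rw [this]
        exact hD.diff hs
      measurableSet_iUnion := by
        intro f hf
        rw [Set.iUnion_inter]
        exact MeasurableSet.iUnion hf }
  exact (MeasurableSpace.generateFrom_le (m := T) hC) s hs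

end Gen

section Mod

variable {G X S : Type} [Group G] [MulAction G X] [MulAction G S] {mS : MeasurableSpace S}
  [MeasurableSpace.CountablySeparated S] {σ : Measure S} [IsProbabilityMeasure σ]
  {m m0 : MeasurableSpace X} {mX : MeasurableSpace X} {μ : Measure X} [IsProbabilityMeasure μ]

/-- decoding: the label is measurable with respect to the code -/
theorem decode_mod {K : Subgroup G} {M : MeasurableSpace X} (hM : Inv G M)
    (hMcl : ∀ s t : Set X, MeasurableSet[M] t → s =ᵐ[μ] t → MeasurableSet[M] s) {k : ℕ} {f : X → Fin k}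
    {F : Finset G} {D : Set X} (hD : MeasurableSet[M] D)
    (hK : ∀ g ∈ K, μ {x | ¬ (g • x ∈ D ↔ x ∈ D)} = 0) {l : ℕ} {γ : X → Fin l}
    {C : Set (Set X)} (hC : ∀ v ∈ C, MeasurableSet[M] v)
    (hu : ∀ t ∈ F, ∀ i : Fin k, ∃ u : Set X,
        @MeasurableSet X (MeasurableSpace.generateFrom C ⊔ MeasurableSpace.generateFrom
          {v : Set X | ∃ g ∈ K, ∃ j : Fin l, v = (fun x : X => g • x) ⁻¹' (γ ⁻¹' {j})}) u
        ∧ μ (symmDiff ((fun x : X => t • x) ⁻¹' (f ⁻¹' {i})) u) = 0)
    (hS : ∀ (w : Fin l) (r : ℕ), MeasurableSet[M] {x | rk μ m γ x w = r})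
    (h1 : ∀ r, MeasurableSet[M] (bone μ m γ D ⁻¹' {r}))
    (h2 : ∀ r, MeasurableSet[M] (btwo f {x | ∀ t ∈ F, t⁻¹ • x ∉ D} ⁻¹' {r})) (i : Fin k) :
    MeasurableSet[M] (f ⁻¹' {i}) := by
  classical
  -- the names over `D`
  have hγ : ∀ j : Fin l, MeasurableSet[M] (γ ⁻¹' {j} ∩ D) := by
    intro j
    have e1 : γ ⁻¹' {j} ∩ D = D ∩ ⋃ r : ℕ, (bone μ m γ D ⁻¹' {r} ∩ {x | rk μ m γ x j = r}) := by
      ext x
      simp only [Set.mem_inter_iff, Set.mem_preimage, Set.mem_singleton_iff, Set.mem_iUnion,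
        Set.mem_ofPred_eq]
      constructor
      · rintro ⟨h, hx⟩
        refine ⟨hx, _, rfl, ?_⟩
        unfold bone
        rw [if_pos hx, h]
      · rintro ⟨hx, r, hr, hr'⟩
        refine ⟨?_, hx⟩
        unfold bone at hr
        rw [if_pos hx, ← hr'] at hr
        exact rk_inj hr
    rw [e1]
    exact hD.inter (MeasurableSet.iUnion fun r => (h1 r).inter (hS j r))
  -- the translates over `D`
  have htr : ∀ t ∈ F, MeasurableSet[M] ((fun x : X => t • x) ⁻¹' (f ⁻¹' {i}) ∩ D) := by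
    intro t ht
    obtain ⟨u, hu1, hu2⟩ := hu t ht i
    rw [MeasurableSpace.generateFrom_sup_generateFrom] at hu1
    have h3 : MeasurableSet[M] (u ∩ D) := by
      refine trace hD ?_ hu1
      rintro v (hv | ⟨g, hg, j, rfl⟩)
      · exact (hC v hv).inter hD
      · refine hMcl _ ((fun x : X => g • x) ⁻¹' (γ ⁻¹' {j} ∩ D)) (hM g _ (hγ j)) ?_
        have h4 : ∀ᵐ x ∂μ, (g • x ∈ D ↔ x ∈ D) := hK g hg
        filter_upwards [h4] with x hx
        apply propext
        show (g • x ∈ γ ⁻¹' {j} ∧ x ∈ D) ↔ (g • x ∈ γ ⁻¹' {j} ∧ g • x ∈ D)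
        rw [hx]
    refine hMcl _ _ h3 ?_
    have h5 : (fun x : X => t • x) ⁻¹' (f ⁻¹' {i}) =ᵐ[μ] u := measure_symmDiff_eq_zero_iff.1 hu2
    exact h5.inter (Filter.EventuallyEq.refl _ _)
  have key : f ⁻¹' {i} = (btwo f {x | ∀ t ∈ F, t⁻¹ • x ∉ D} ⁻¹' {(i : ℕ) + 1}) ∪
      ⋃ t : F, (fun x : X => (t : G)⁻¹ • x) ⁻¹' ((fun x : X => (t : G) • x) ⁻¹' (f ⁻¹' {i}) ∩ D) := by
    ext x
    simp only [Set.mem_union, Set.mem_preimage, Set.mem_singleton_iff, Set.mem_iUnion, Set.mem_inter_iff,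
      smul_inv_smul]
    constructor
    · intro hx
      by_cases h : ∀ t ∈ F, t⁻¹ • x ∉ D
      · left
        unfold btwo
        rw [if_pos (show x ∈ {x : X | ∀ t ∈ F, t⁻¹ • x ∉ D} from h), hx]
      · right
        push Not at h
        obtain ⟨t, ht, hxt⟩ := h
        exact ⟨⟨t, ht⟩, hx, hxt⟩
    · rintro (h | ⟨t, h, _⟩)
      · unfold btwo at h
        split_ifs at h with h'
        exact Fin.ext (by omega)
      · exact h
  rw [key]
  refine MeasurableSet.union (h2 _) ?_
  exact MeasurableSet.iUnion fun t => hM _ _ (htr t t.2)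

/-- the main step -/
theorem mod_step (hμ : ∀ g : G, MeasurePreserving (fun x : X => g • x) μ μ) {K : Subgroup G}
    (hact : ∀ g : G, MeasurePreserving (fun s : S => g • s) σ σ)
    (hK1 : ∀ g : G, g ∈ K → σ {s : S | g • s ≠ s} = 0)
    (hK2 : ∀ g : G, g ∉ K → σ {s : S | g • s = s} = 0)
    {τ : X → S} (hτm : MeasurePreserving τ μ σ) (hτ : ∀ (g : G) (x : X), τ (g • x) = g • τ x)
    (hm : m ≤ mX) (hi0 : Inv G m0) (hτ0 : mS.comap τ ≤ m0) (hm0 : m0 ≤ m)
    (hout : ∀ s, MeasurableSet[m] s → Out G μ m0 s)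
    {k : ℕ} {f : X → Fin k} (hf : Measurable f) (hz : Negligible K μ m f) (i : Fin k) :
    Out G μ m0 (f ⁻¹' {i}) := by
  classical
  refine ⟨hf (measurableSet_singleton i), fun ε hε => ?_⟩
  -- the real parameter
  obtain ⟨e, he0, hee⟩ : ∃ e : ℝ, 0 < e ∧ ENNReal.ofReal e + (ENNReal.ofReal e +
      (ENNReal.ofReal e + ENNReal.ofReal e)) ≤ ε := by
    obtain ⟨e, he0, he⟩ := ENNReal.lt_iff_exists_nnreal_btwn.1 hε
    refine ⟨(e : ℝ) / 4, ?_, ?_⟩
    · have : (0 : ℝ) < e := by exact_mod_cast he0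
      positivity
    · rw [← ENNReal.ofReal_add (by positivity) (by positivity),
        ← ENNReal.ofReal_add (by positivity) (by positivity),
        ← ENNReal.ofReal_add (by positivity) (by positivity)]
      refine le_trans (le_of_eq ?_) he.le
      rw [show (e : ℝ) / 4 + ((e : ℝ) / 4 + ((e : ℝ) / 4 + (e : ℝ) / 4)) = (e : ℝ) by ring]
      exact ENNReal.ofReal_coe_nnreal
  have hL : 0 ≤ Real.log ((k : ℝ) + 1) := Real.log_nonneg (by
    have : (0 : ℝ) ≤ k := Nat.cast_nonneg k
    linarith)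
  obtain ⟨b2, hb20, hb21, hb2e, hb2⟩ := exists_b hL he0
  obtain ⟨b1, hb10, hb11, hb1e, hb1⟩ := exists_b (le_refl 0) (half_pos he0)
  set C : ℝ := max 1 (-Real.log (b2 / 6)) with hC
  have hC1 : 1 ≤ C := le_max_left _ _
  have hCexp : Real.exp (-C) ≤ b2 / 6 := by
    rw [← Real.le_log_iff_exp_le (by positivity)]
    have : -Real.log (b2 / 6) ≤ C := le_max_right _ _
    linarith
  set η : ℝ := min (b1 / (6 * C)) (e / (12 * C)) with hη
  have hCpos : 0 < C := by linarith
  have hη0 : 0 < η := lt_min (by positivity) (by positivity)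
  have hη1 : η * (6 * C) ≤ b1 := by
    have : η ≤ b1 / (6 * C) := min_le_left _ _
    rwa [le_div_iff₀ (by positivity)] at this
  have hη2 : η * (12 * C) ≤ e := by
    have : η ≤ e / (12 * C) := min_le_right _ _
    rwa [le_div_iff₀ (by positivity)] at this
  obtain ⟨F, hFK, hF1, l, γ, hγm, hF2, hu⟩ := hz η hη0
  have hFpos : (0 : ℝ) < F.card := by
    by_contra h
    push Not at h
    have : η * F.card ≤ 0 := mul_nonpos_of_nonneg_of_nonpos hη0.le h
    linarith
  have hF3 : 6 * C ≤ b1 * F.card := by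
    calc 6 * C = 6 * C * 1 := by ring
      _ ≤ 6 * C * (η * F.card) := by gcongr
      _ = (η * (6 * C)) * F.card := by ring
      _ ≤ b1 * F.card := by gcongr
  set p : ℝ := C / F.card with hp
  have hp0 : 0 < p := by positivity
  have hp3 : 3 * p ≤ b1 := by
    rw [hp, ← mul_div_assoc, div_le_iff₀ hFpos]
    linarith
  have hp1 : p < 1 := by linarith
  have hexp : (1 - p) ^ F.card ≤ b2 / 6 := by
    have h1 : 1 - p ≤ Real.exp (-p) := by
      have := Real.add_one_le_exp (-p)
      linarith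
    calc (1 - p) ^ F.card ≤ (Real.exp (-p)) ^ F.card := by
          apply pow_le_pow_left₀ (by linarith) h1
      _ = Real.exp (-C) := by
          rw [← Real.exp_nat_mul]
          congr 1
          rw [hp]
          field_simp
      _ ≤ b2 / 6 := hCexp
  -- the random set
  have hfm : Measurable (fun x => ENNReal.ofReal (∑ w, Real.negMulLog (cp μ m γ w x))) := by
    apply ENNReal.measurable_ofReal.comp
    apply Finset.measurable_fun_sum
    intro w _
    exact Real.continuous_negMulLog.measurable.comp ((cp_meas w).mono hm le_rfl)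
  have hI : ∫⁻ x, ENNReal.ofReal (∑ w, Real.negMulLog (cp μ m γ w x)) ∂μ
      ≤ ENNReal.ofReal (η * F.card) := by
    have h1 := lint_eq (μ := μ) hm hγm Set.univ
    simp only [Measure.restrict_univ] at h1
    rw [h1]
    apply ENNReal.ofReal_le_ofReal
    rw [integral_finsetSum _ (fun w _ => nml_integrable hm hγm w)]
    exact hF2
  have hfree : ∀ t ∈ F, ∀ s ∈ F, t ≠ s → σ {y : S | (t * s⁻¹) • y = y} = 0 := by
    intro t ht s hs hts
    exact hK2 _ fun h => hts (hFK t ht s hs h)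
  obtain ⟨B, hBm, hBν, hBu, hBI⟩ := cover (p := p) (δ := ENNReal.ofReal (b2 / 6))
    (fun g => (hact g).measurable) F hfree hp0 hp1
    (by simpa using by positivity) ENNReal.ofReal_ne_top hτm.measurable hfm hI
    (by simpa using by positivity) ENNReal.ofReal_ne_top
  set D : Set X := τ ⁻¹' B with hD
  have hD0 : MeasurableSet[m0] D := hτ0 _ ⟨B, hBm, rfl⟩
  have hDm : MeasurableSet[m] D := hm0 _ hD0
  have hμD : μ D ≤ ENNReal.ofReal b1 := by
    rw [hD, hτm.measure_preimage hBm.nullMeasurableSet]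
    refine hBν.trans ?_
    rw [show (3 : ℝ≥0∞) = ENNReal.ofReal 3 by simp, ← ENNReal.ofReal_mul (by norm_num)]
    exact ENNReal.ofReal_le_ofReal hp3
  have hDK : ∀ g ∈ K, μ {x | ¬ (g • x ∈ D ↔ x ∈ D)} = 0 := by
    intro g hg
    have h1 : ∀ᵐ s ∂σ, g • s = s := hK1 g hg
    have h2 : ∀ᵐ x ∂μ, g • τ x = τ x := hτm.quasiMeasurePreserving.ae h1
    have h3 : ∀ᵐ x ∂μ, (g • x ∈ D ↔ x ∈ D) := by
      filter_upwards [h2] with x hx
      show τ (g • x) ∈ B ↔ τ x ∈ B
      rw [hτ, hx]
    exact h3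
  -- the codes
  have hone : Small μ (ENNReal.ofReal e) (bone μ m γ D) := by
    refine bone_small (b := b1) (J := 3 * (C * η)) hm hγm hDm hb10 hb11 (by positivity) hμD ?_
      (by linarith) ?_
    · refine hBI.trans ?_
      rw [show (3 : ℝ≥0∞) = ENNReal.ofReal 3 by simp, ← ENNReal.ofReal_mul hp0.le,
        ← ENNReal.ofReal_mul (by norm_num)]
      apply ENNReal.ofReal_le_ofReal
      rw [hp]
      apply le_of_eq
      field_simp
    · nlinarith
  have hUm : MeasurableSet {x : X | ∀ t ∈ F, t⁻¹ • x ∉ D} := by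
    have : {x : X | ∀ t ∈ F, t⁻¹ • x ∉ D} = ⋂ t ∈ F, (fun x : X => t⁻¹ • x) ⁻¹' Dᶜ := by
      ext x; simp
    rw [this]
    exact Finset.measurableSet_biInter F fun t _ => (hμ t⁻¹).measurable (hm _ hDm).compl
  have hμU : μ {x : X | ∀ t ∈ F, t⁻¹ • x ∉ D} ≤ ENNReal.ofReal b2 := by
    have h1 : {x : X | ∀ t ∈ F, t⁻¹ • x ∉ D} = τ ⁻¹' {y | ∀ t ∈ F, t⁻¹ • y ∉ B} := by
      ext x
      simp [hD, hτ]
    have h2 : MeasurableSet {y : S | ∀ t ∈ F, t⁻¹ • y ∉ B} := by
      have : {y : S | ∀ t ∈ F, t⁻¹ • y ∉ B} = ⋂ t ∈ F, (fun y : S => t⁻¹ • y) ⁻¹' Bᶜ := by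
        ext y; simp
      rw [this]
      exact Finset.measurableSet_biInter F fun t _ => (hact t⁻¹).measurable hBm.compl
    rw [h1, hτm.measure_preimage h2.nullMeasurableSet]
    refine hBu.trans ?_
    rw [show (3 : ℝ≥0∞) = ENNReal.ofReal 3 by simp, ← ENNReal.ofReal_add (by positivity) (by positivity),
      ← ENNReal.ofReal_mul (by norm_num)]
    apply ENNReal.ofReal_le_ofReal
    linarith
  have htwo : Small μ (ENNReal.ofReal e) (btwo f {x : X | ∀ t ∈ F, t⁻¹ • x ∉ D}) :=
    btwo_small hf hUm hb20 hb21 hμU hb2e hb2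
  -- the code for the ranks
  have hne : Nonempty X := nonempty_of_isProbabilityMeasure μ
  have : Nonempty (Fin l × ℕ) := hne.map fun x => (γ x, 0)
  obtain ⟨enm, henm⟩ := exists_surjective_nat (Fin l × ℕ)
  have hSm : ∀ (w : Fin l) (r : ℕ), MeasurableSet[m] {x | rk μ m γ x w = r} := by
    intro w r
    exact (rk_meas w) (measurableSet_singleton r)
  obtain ⟨β0, hβ0, hβ0s⟩ := out_countable hμ (m := m0) (s := fun j => {x | rk μ m γ x (enm j).1 = (enm j).2})
    (fun j => hout _ (hSm _ _)) (ENNReal.ofReal_pos.2 he0)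
  -- the code for the sets of `m` in the description of the translates
  have : Nonempty F := by
    have : 0 < F.card := by exact_mod_cast hFpos
    exact (Finset.card_pos.1 this).to_subtype
  have : Nonempty (F × Fin k × ℕ) := hne.map fun x => (Classical.arbitrary F, f x, 0)
  obtain ⟨en, hen⟩ := exists_surjective_nat (F × Fin k × ℕ)
  choose! u hu1 hu2 using hu
  have hex : ∀ q : F × Fin k, ∃ a : ℕ → Set X, (∀ n, MeasurableSet[m] (a n)) ∧
      MeasurableSet[MeasurableSpace.generateFrom (Set.range a) ⊔ MeasurableSpace.generateFrom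
        {v : Set X | ∃ g ∈ K, ∃ j : Fin l, v = (fun x : X => g • x) ⁻¹' (γ ⁻¹' {j})}] (u q.1 q.2) :=
    fun q => sup_countable (hu1 q.1 q.1.2 q.2)
  choose a ha1 ha2 using hex
  obtain ⟨β3, hβ3, hβ3s⟩ := out_countable hμ (m := m0)
    (s := fun j => a ((en j).1, (en j).2.1) (en j).2.2)
    (fun j => hout _ (ha1 _ _)) (ENNReal.ofReal_pos.2 he0)
  refine ⟨fun x => Nat.pair (β0 x) (Nat.pair (β3 x) (Nat.pair (bone μ m γ D x)
    (btwo f {x : X | ∀ t ∈ F, t⁻¹ • x ∉ D} x))), ?_, ?_⟩
  · have := small_pair hβ0 (small_pair hβ3 (small_pair hone htwo))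
    exact ⟨this.meas, this.supp.trans hee, this.en.trans hee⟩
  · set β : X → ℕ := fun x => Nat.pair (β0 x) (Nat.pair (β3 x) (Nat.pair (bone μ m γ D x)
      (btwo f {x : X | ∀ t ∈ F, t⁻¹ • x ∉ D} x))) with hβ
    have hM : Inv G (cl μ (m0 ⊔ gen G β)) := cl_inv hμ (hi0.sup (gen_inv β))
    refine decode_mod (μ := μ) (m := m) (K := K) (D := D) (F := F) (γ := γ)
      (C := Set.range fun q : (F × Fin k) × ℕ => a q.1 q.2) hM (fun s t ht hst => cl_ae ht hst) ?_ hDK
      ?_ ?_ ?_ ?_ ?_ i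
    · exact le_cl _ ((le_sup_left : m0 ≤ m0 ⊔ gen G β) _ hD0)
    · rintro _ ⟨⟨⟨t, j⟩, n⟩, rfl⟩
      obtain ⟨c, hc⟩ := hen (t, j, n)
      have h1 := hβ3s c
      simp only [hc] at h1
      refine cl_le ?_ _ h1
      refine sup_le (le_sup_left.trans le_cl) ?_
      refine (gen_le_of_ae (J := β) (d := fun n => (Nat.unpair (Nat.unpair n).2).1) hμ ?_).trans
        (cl_mono le_sup_right)
      exact Eventually.of_forall fun x => by simp [hβ]
    · intro t ht j
      refine ⟨u t j, ?_, hu2 t ht j⟩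
      refine (sup_le_sup_right (MeasurableSpace.generateFrom_mono ?_) _) _ (ha2 (⟨t, ht⟩, j))
      rintro _ ⟨n, rfl⟩
      exact ⟨((⟨t, ht⟩, j), n), rfl⟩
    · intro w r
      obtain ⟨j, hj⟩ := henm (w, r)
      have h1 := hβ0s j
      simp only [hj] at h1
      refine cl_le ?_ _ h1
      refine sup_le (le_sup_left.trans le_cl) ?_
      refine (gen_le_of_ae (J := β) (d := fun n => (Nat.unpair n).1) hμ ?_).trans (cl_mono le_sup_right)
      exact Eventually.of_forall fun x => by simp [hβ]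
    · intro r
      refine le_cl _ ((le_sup_right : gen G β ≤ m0 ⊔ gen G β) _ ?_)
      have : bone μ m γ D ⁻¹' {r} = β ⁻¹' {n | (Nat.unpair (Nat.unpair (Nat.unpair n).2).2).1 = r} := by
        ext x; simp [hβ]
      rw [this]
      exact gen_set β _
    · intro r
      refine le_cl _ ((le_sup_right : gen G β ≤ m0 ⊔ gen G β) _ ?_)
      have : btwo f {x : X | ∀ t ∈ F, t⁻¹ • x ∉ D} ⁻¹' {r}
          = β ⁻¹' {n | (Nat.unpair (Nat.unpair (Nat.unpair n).2).2).2 = r} := by
        ext x; simp [hβ]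
      rw [this]
      exact gen_set β _

end Mod

end Pool.Agent.Lib.MP_4c2a44_an
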