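import Pool.Agent.Lib.MP_4c2a44_an.Cover
import Pool.Agent.Lib.MP_4c2a44_an.Defs

/-!
Rank coding: the rank of the actual name in the list of all names, ordered by conditional probability.
-/

open MeasureTheory Set Filter Topology
open scoped ENNReal

namespace Pool.Agent.Lib.MP_4c2a44_an

section EntRank

variable {X : Type} {mX : MeasurableSpace X} {μ : Measure X} [IsProbabilityMeasure μ]

theorem integral_comp_nat {β : X → ℕ} (hβ : Measurable β) {n : ℕ} (hn : ∀ x, β x ≤ n)
    (Ψ : ℕ → ℝ) :
    ∫ x, Ψ (β x) ∂μ = ∑ r ∈ Finset.range (n + 1), μ.real (β ⁻¹' {r}) * Ψ r := by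
  have h1 : (fun x => Ψ (β x)) = fun x => ∑ r ∈ Finset.range (n + 1),
      (β ⁻¹' {r}).indicator (fun _ => Ψ r) x := by
    ext x
    rw [Finset.sum_eq_single (β x)]
    · simp
    · intro r _ hr
      rw [Set.indicator_of_notMem]
      intro h
      exact hr (Set.mem_singleton_iff.1 h).symm
    · intro h
      exact absurd (Finset.mem_range.2 (Nat.lt_succ_of_le (hn x))) h
  rw [h1, integral_finsetSum]
  · apply Finset.sum_congr rfl
    intro r _
    rw [integral_indicator_const _ (hβ (measurableSet_singleton r))]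
    rfl
  · intro r _
    exact (integrable_const _).indicator (hβ (measurableSet_singleton r))

theorem ent_rank {β : X → ℕ} (hβ : Measurable β) {n : ℕ} (hn : ∀ x, β x ≤ n) {b J : ℝ}
    (hb0 : 0 < b) (hb1 : b ≤ 1) (hb : μ.real {x | β x ≠ 0} ≤ b)
    (hJ : ∫ x, Real.log (β x) ∂μ ≤ J) :
    ent μ β ≤ ENNReal.ofReal (2 * b + b * Real.log (2 / b) + 2 * J) := by
  set q : ℕ → ℝ := fun r => μ.real (β ⁻¹' {r}) with hq
  have hq0 : ∀ r, 0 ≤ q r := fun r => measureReal_nonneg
  have hq1 : ∀ r, q r ≤ 1 := fun r => measureReal_le_one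
  have e1 : ent μ β = ENNReal.ofReal (∑ r ∈ Finset.range (n + 1), Real.negMulLog (q r)) := by
    rw [ENNReal.ofReal_sum_of_nonneg (fun r _ => Real.negMulLog_nonneg (hq0 r) (hq1 r))]
    unfold ent
    apply tsum_eq_sum
    intro r hr
    have : β ⁻¹' {r} = ∅ := by
      ext x
      simp only [Set.mem_preimage, Set.mem_singleton_iff, Set.mem_empty_iff_false, iff_false]
      intro h
      apply hr
      rw [Finset.mem_range, ← h]
      exact Nat.lt_succ_of_le (hn x)
    rw [this]
    simp
  rw [e1]
  apply ENNReal.ofReal_le_ofReal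
  have hs1 : ∑ r ∈ Finset.range (n + 1), q r * 1 = 1 := by
    rw [← integral_comp_nat hβ hn (fun _ => 1)]
    simp
  have hs2 : ∑ r ∈ Finset.range (n + 1), q r * (if r = 0 then 0 else 1) ≤ b := by
    rw [← integral_comp_nat hβ hn (fun r => if r = 0 then 0 else 1)]
    have : (fun x => if β x = 0 then (0 : ℝ) else 1) = {x | β x ≠ 0}.indicator (fun _ => 1) := by
      ext x
      by_cases h : β x = 0 <;> simp [h]
    rw [this, integral_indicator_const]
    · simpa using hb
    · exact (hβ (measurableSet_singleton 0)).compl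
  have hs3 : ∑ r ∈ Finset.range (n + 1), q r * Real.log r ≤ J := by
    rw [← integral_comp_nat hβ hn (fun r => Real.log r)]
    exact hJ
  have hs4 : ∑ r ∈ Finset.range (n + 1), (if r = 0 then 0 else b / 2 * ((r : ℝ) ^ 2)⁻¹) ≤ b := by
    have h1 := sum_Ioo_inv_sq_le (α := ℝ) 0 (n + 1)
    have h2 : ∑ r ∈ Finset.range (n + 1), (if r = 0 then 0 else b / 2 * ((r : ℝ) ^ 2)⁻¹)
        = b / 2 * ∑ i ∈ Finset.Ioo 0 (n + 1), ((i : ℝ) ^ 2)⁻¹ := by
      rw [Finset.mul_sum, Finset.sum_range_succ']
      simp only [if_true, add_zero]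
      have h3 : Finset.Ioo 0 (n + 1) = (Finset.range n).image (fun i => i + 1) := by
        ext i
        simp only [Finset.mem_Ioo, Finset.mem_image, Finset.mem_range]
        constructor
        · rintro ⟨h, h'⟩
          exact ⟨i - 1, by omega, by omega⟩
        · rintro ⟨j, hj, rfl⟩
          omega
      rw [h3, Finset.sum_image (by intro a _ c _ h; exact Nat.succ_injective h)]
      apply Finset.sum_congr rfl
      intro i _
      simp
    rw [h2]
    norm_num at h1
    nlinarith
  have hlog : 0 ≤ Real.log (2 / b) := Real.log_nonneg (by rw [le_div_iff₀ hb0]; linarith)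
  have key : ∀ r ∈ Finset.range (n + 1), Real.negMulLog (q r) ≤
      Real.log (2 / b) * (q r * (if r = 0 then 0 else 1)) + 2 * (q r * Real.log r)
      + (if r = 0 then 0 else b / 2 * ((r : ℝ) ^ 2)⁻¹) + (if r = 0 then 1 else 0) - q r := by
    intro r _
    by_cases hr : r = 0
    · subst hr
      have := nml_le (hq0 0) one_pos
      simp at this ⊢
      linarith
    · have hr0 : (0 : ℝ) < r := by exact_mod_cast Nat.pos_of_ne_zero hr
      have hθ : 0 < b / 2 * ((r : ℝ) ^ 2)⁻¹ := by positivity
      have h1 := nml_le (hq0 r) hθ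
      have h2 : -Real.log (b / 2 * ((r : ℝ) ^ 2)⁻¹) = Real.log (2 / b) + 2 * Real.log r := by
        rw [Real.log_mul (by positivity) (by positivity), Real.log_inv, Real.log_pow,
          Real.log_div hb0.ne' two_ne_zero, Real.log_div two_ne_zero hb0.ne']
        push_cast
        ring
      rw [h2] at h1
      simp only [hr, if_false]
      nlinarith
  have htot := Finset.sum_le_sum key
  rw [Finset.sum_sub_distrib, Finset.sum_add_distrib, Finset.sum_add_distrib,
    Finset.sum_add_distrib, ← Finset.mul_sum, ← Finset.mul_sum] at htot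
  have hs5 : ∑ r ∈ Finset.range (n + 1), (if r = 0 then (1 : ℝ) else 0) = 1 := by
    rw [Finset.sum_ite_eq' (Finset.range (n + 1)) 0 (fun _ => (1 : ℝ))]
    simp
  rw [hs5] at htot
  simp only [mul_one] at hs1
  rw [hs1] at htot
  have := mul_le_mul_of_nonneg_left hs2 hlog
  nlinarith

end EntRank

section Cond

variable {X W : Type} [Fintype W]

/-- conditional probability of the name `w` -/
noncomputable def cp {mX : MeasurableSpace X} (μ : Measure X) (m : MeasurableSpace X) (φ : X → W)
    (w : W) : X → ℝ :=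
  μ[(φ ⁻¹' {w}).indicator (fun _ => (1 : ℝ)) | m]

open Classical in
/-- the rank of `w` in the order of decreasing conditional probability -/
noncomputable def rk {mX : MeasurableSpace X} (μ : Measure X) (m : MeasurableSpace X) (φ : X → W)
    (x : X) (w : W) : ℕ :=
  (Finset.univ.filter fun w' => cp μ m φ w x < cp μ m φ w' x ∨
    (cp μ m φ w x = cp μ m φ w' x ∧ Fintype.equivFin W w' ≤ Fintype.equivFin W w)).card

variable {m : MeasurableSpace X} {mX : MeasurableSpace X} {μ : Measure X} {φ : X → W}

theorem rk_pos (x : X) (w : W) : 1 ≤ rk μ m φ x w := by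
  classical
  unfold rk
  apply Finset.card_pos.2
  exact ⟨w, by simp⟩

theorem rk_le (x : X) (w : W) : rk μ m φ x w ≤ Fintype.card W := by
  classical
  unfold rk
  exact Finset.card_le_univ _

theorem rk_inj {x : X} {w w' : W} (h : rk μ m φ x w = rk μ m φ x w') : w = w' := by
  classical
  -- `w` above `w'`
  have key : ∀ u v : W, u ≠ v → (cp μ m φ v x < cp μ m φ u x ∨
      (cp μ m φ v x = cp μ m φ u x ∧ Fintype.equivFin W u ≤ Fintype.equivFin W v)) →
      rk μ m φ x u < rk μ m φ x v := by
    intro u v huv hP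
    unfold rk
    apply Finset.card_lt_card
    rw [Finset.ssubset_iff_of_subset]
    · refine ⟨v, by simp, ?_⟩
      simp only [Finset.mem_filter, Finset.mem_univ, true_and, not_or, not_and, not_le, not_lt]
      rcases hP with h1 | ⟨h1, h2⟩
      · exact ⟨h1.le, fun h' => absurd h' h1.ne'⟩
      · refine ⟨h1.le, fun _ => ?_⟩
        exact lt_of_le_of_ne h2 fun h' => huv ((Fintype.equivFin W).injective h')
    · intro z hz
      simp only [Finset.mem_filter, Finset.mem_univ, true_and] at hz ⊢
      rcases hP with h1 | ⟨h1, h2⟩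
      · rcases hz with h3 | ⟨h3, _⟩
        · exact Or.inl (h1.trans h3)
        · exact Or.inl (h3 ▸ h1)
      · rcases hz with h3 | ⟨h3, h4⟩
        · exact Or.inl (h1 ▸ h3)
        · exact Or.inr ⟨h1.trans h3, h4.trans h2⟩
  by_contra hne
  rcases lt_trichotomy (cp μ m φ w' x) (cp μ m φ w x) with h1 | h1 | h1
  · exact (key w w' hne (Or.inl h1)).ne h
  · rcases le_total (Fintype.equivFin W w) (Fintype.equivFin W w') with h2 | h2
    · exact (key w w' hne (Or.inr ⟨h1, h2⟩)).ne h
    · exact (key w' w (Ne.symm hne) (Or.inr ⟨h1.symm, h2⟩)).ne h.symm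
  · exact (key w' w (Ne.symm hne) (Or.inl h1)).ne h.symm

theorem rk_mul {x : X} (h0 : ∀ w, 0 ≤ cp μ m φ w x) (h1 : ∑ w, cp μ m φ w x = 1) (w : W) :
    cp μ m φ w x * rk μ m φ x w ≤ 1 := by
  classical
  rw [← h1]
  unfold rk
  set T := (Finset.univ.filter fun w' => cp μ m φ w x < cp μ m φ w' x ∨
    (cp μ m φ w x = cp μ m φ w' x ∧ Fintype.equivFin W w' ≤ Fintype.equivFin W w)) with hT
  calc cp μ m φ w x * T.card = ∑ w' ∈ T, cp μ m φ w x := by
        rw [Finset.sum_const, nsmul_eq_mul]; ring
    _ ≤ ∑ w' ∈ T, cp μ m φ w' x := by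
        apply Finset.sum_le_sum
        intro w' hw'
        rw [hT, Finset.mem_filter] at hw'
        rcases hw'.2 with h | ⟨h, _⟩
        · exact h.le
        · exact h.le
    _ ≤ ∑ w', cp μ m φ w' x :=
        Finset.sum_le_sum_of_subset_of_nonneg (Finset.subset_univ _) fun w' _ _ => h0 w'

theorem cp_meas (w : W) : Measurable[m] (cp μ m φ w) := stronglyMeasurable_condExp.measurable

theorem rk_meas (w : W) : Measurable[m] (fun x => rk μ m φ x w) := by
  classical
  have : (fun x => rk μ m φ x w) = fun x => ∑ w' : W, if (cp μ m φ w x < cp μ m φ w' x ∨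
      (cp μ m φ w x = cp μ m φ w' x ∧ Fintype.equivFin W w' ≤ Fintype.equivFin W w)) then 1 else 0 := by
    ext x
    unfold rk
    rw [Finset.card_filter]
  rw [this]
  refine Finset.measurable_fun_sum (m := m) _ fun w' _ => ?_
  have hP : MeasurableSet[m] {x | cp μ m φ w x < cp μ m φ w' x ∨
      (cp μ m φ w x = cp μ m φ w' x ∧ Fintype.equivFin W w' ≤ Fintype.equivFin W w)} := ?_
  · exact Measurable.ite hP measurable_const measurable_const
  have h1 : MeasurableSet[m] {x | cp μ m φ w x < cp μ m φ w' x} :=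
    measurableSet_lt (cp_meas w) (cp_meas w')
  have h2 : MeasurableSet[m] {x | cp μ m φ w x = cp μ m φ w' x} :=
    measurableSet_eq_fun (cp_meas w) (cp_meas w')
  by_cases h : Fintype.equivFin W w' ≤ Fintype.equivFin W w
  · have : {x | cp μ m φ w x < cp μ m φ w' x ∨
        (cp μ m φ w x = cp μ m φ w' x ∧ Fintype.equivFin W w' ≤ Fintype.equivFin W w)}
        = {x | cp μ m φ w x < cp μ m φ w' x} ∪ {x | cp μ m φ w x = cp μ m φ w' x} := by
      ext x; simp [h]
    rw [this]
    exact h1.union h2
  · have : {x | cp μ m φ w x < cp μ m φ w' x ∨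
        (cp μ m φ w x = cp μ m φ w' x ∧ Fintype.equivFin W w' ≤ Fintype.equivFin W w)}
        = {x | cp μ m φ w x < cp μ m φ w' x} := by
      ext x; simp [h]
    rw [this]
    exact h1

variable [MeasurableSpace W] [MeasurableSingletonClass W] [IsProbabilityMeasure μ]

theorem cp_nonneg : ∀ᵐ x ∂μ, ∀ w, 0 ≤ cp μ m φ w x := by
  rw [ae_all_iff]
  intro w
  have h : 0 ≤ᵐ[μ] (φ ⁻¹' {w}).indicator (fun _ => (1 : ℝ)) :=
    Eventually.of_forall fun x => Set.indicator_nonneg (fun _ _ => zero_le_one) x
  exact condExp_nonneg h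

theorem cp_sum (hm : m ≤ mX) (hφ : Measurable φ) : ∀ᵐ x ∂μ, ∑ w, cp μ m φ w x = 1 := by
  classical
  have hint : ∀ w ∈ (Finset.univ : Finset W), Integrable ((φ ⁻¹' {w}).indicator (fun _ => (1 : ℝ))) μ :=
    fun w _ => (integrable_const _).indicator (hφ (measurableSet_singleton w))
  have h1 := condExp_finsetSum hint m
  have h2 : (∑ w : W, (φ ⁻¹' {w}).indicator (fun _ => (1 : ℝ))) = fun _ => (1 : ℝ) := by
    ext x
    rw [Finset.sum_apply, Finset.sum_eq_single (φ x)]
    · simp
    · intro w _ hw
      rw [Set.indicator_of_notMem]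
      intro h
      exact hw (Set.mem_singleton_iff.1 h).symm
    · intro h; exact absurd (Finset.mem_univ _) h
  rw [h2, condExp_const hm] at h1
  filter_upwards [h1] with x hx
  rw [Finset.sum_apply] at hx
  exact hx.symm

theorem cp_le_one (hm : m ≤ mX) (hφ : Measurable φ) : ∀ᵐ x ∂μ, ∀ w, cp μ m φ w x ≤ 1 := by
  filter_upwards [cp_nonneg (μ := μ) (m := m) (φ := φ), cp_sum hm hφ] with x h0 h1 w
  rw [← h1]
  exact Finset.single_le_sum (fun w' _ => h0 w') (Finset.mem_univ w)

theorem nml_integrable (hm : m ≤ mX) (hφ : Measurable φ) (w : W) :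
    Integrable (fun x => Real.negMulLog (cp μ m φ w x)) μ := by
  refine Integrable.of_bound (C := 1) ?_ ?_
  · exact (Real.continuous_negMulLog.measurable.comp ((cp_meas w).mono hm le_rfl)).aestronglyMeasurable
  · filter_upwards [cp_nonneg (μ := μ) (m := m) (φ := φ), cp_le_one hm hφ] with x h0 h1
    rw [Real.norm_of_nonneg (Real.negMulLog_nonneg (h0 w) (h1 w))]
    have := nml_le (h0 w) one_pos
    simp at this
    have := h0 w
    linarith

/-- the main inequality: the logarithm of the rank costs at most the conditional entropy -/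
theorem rank_int (hm : m ≤ mX) (hφ : Measurable φ) {B : Set X} (hB : MeasurableSet[m] B) :
    ∫ x in B, Real.log (rk μ m φ x (φ x)) ∂μ
      ≤ ∫ x in B, (∑ w, Real.negMulLog (cp μ m φ w x)) ∂μ := by
  classical
  have hlogm : ∀ w, Measurable[m] (fun x => Real.log (rk μ m φ x w)) := by
    intro w
    exact (Real.measurable_log.comp measurable_from_nat).comp (rk_meas w)
  have hlb : ∀ x w, ‖Real.log (rk μ m φ x w)‖ ≤ Real.log (Fintype.card W) := by
    intro x w
    have h1 : (1 : ℝ) ≤ rk μ m φ x w := by exact_mod_cast rk_pos x w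
    rw [Real.norm_of_nonneg (Real.log_nonneg h1)]
    exact Real.log_le_log (by linarith) (by exact_mod_cast rk_le x w)
  have hind : ∀ w, Integrable ((φ ⁻¹' {w}).indicator (fun _ => (1 : ℝ))) μ :=
    fun w => (integrable_const _).indicator (hφ (measurableSet_singleton w))
  have hprod : ∀ w, Integrable ((φ ⁻¹' {w}).indicator (fun _ => (1 : ℝ)) *
      fun x => Real.log (rk μ m φ x w)) μ := by
    intro w
    refine Integrable.of_bound (C := Real.log (Fintype.card W)) ?_ ?_
    · exact ((hind w).aestronglyMeasurable).mul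
        ((hlogm w).mono hm le_rfl).aestronglyMeasurable
    · refine Eventually.of_forall fun x => ?_
      rw [Pi.mul_apply, norm_mul]
      have h1 : ‖(φ ⁻¹' {w}).indicator (fun _ => (1 : ℝ)) x‖ ≤ 1 := by
        by_cases h : x ∈ φ ⁻¹' {w}
        · rw [Set.indicator_of_mem h]; simp
        · rw [Set.indicator_of_notMem h]; simp
      calc _ ≤ 1 * ‖Real.log (rk μ m φ x w)‖ := by gcongr
        _ ≤ _ := by rw [one_mul]; exact hlb x w
  have hdecomp : ∀ x, Real.log (rk μ m φ x (φ x)) = ∑ w, ((φ ⁻¹' {w}).indicator (fun _ => (1 : ℝ)) *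
      fun x => Real.log (rk μ m φ x w)) x := by
    intro x
    rw [Finset.sum_eq_single (φ x)]
    · simp
    · intro w _ hw
      rw [Pi.mul_apply, Set.indicator_of_notMem, zero_mul]
      intro h
      exact hw (Set.mem_singleton_iff.1 h).symm
    · intro h; exact absurd (Finset.mem_univ _) h
  simp_rw [hdecomp]
  rw [integral_finsetSum _ (fun w _ => (hprod w).integrableOn),
    integral_finsetSum _ (fun w _ => (nml_integrable hm hφ w).integrableOn)]
  apply Finset.sum_le_sum
  intro w _
  rw [← setIntegral_condExp hm (hprod w) hB]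
  have h1 := condExp_mul_of_stronglyMeasurable_right (hlogm w).stronglyMeasurable (hprod w) (hind w)
  rw [setIntegral_congr_ae (g := fun x => cp μ m φ w x * Real.log (rk μ m φ x w)) (hm B hB)
    (by filter_upwards [h1] with x hx _; exact hx)]
  have hcint : Integrable (fun x => cp μ m φ w x * Real.log (rk μ m φ x w)) μ := by
    refine Integrable.of_bound (C := Real.log (Fintype.card W)) ?_ ?_
    · exact (((cp_meas w).mul (hlogm w)).mono hm le_rfl).aestronglyMeasurable
    · filter_upwards [cp_nonneg (μ := μ) (m := m) (φ := φ), cp_le_one hm hφ] with x h0 h1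
      rw [norm_mul]
      have h2 : ‖cp μ m φ w x‖ ≤ 1 := by rw [Real.norm_of_nonneg (h0 w)]; exact h1 w
      calc _ ≤ 1 * ‖Real.log (rk μ m φ x w)‖ := by gcongr
        _ ≤ _ := by rw [one_mul]; exact hlb x w
  apply setIntegral_mono_ae hcint.integrableOn (nml_integrable hm hφ w).integrableOn
  filter_upwards [cp_nonneg (μ := μ) (m := m) (φ := φ), cp_sum hm hφ] with x h0 h1
  have h2 := rk_mul h0 h1 w
  have h3 : (1 : ℝ) ≤ rk μ m φ x w := by exact_mod_cast rk_pos x w
  rcases (h0 w).eq_or_lt with h4 | h4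
  · rw [← h4]; simp
  · have h5 : Real.log (cp μ m φ w x * rk μ m φ x w) ≤ Real.log 1 :=
      Real.log_le_log (by positivity) h2
    rw [Real.log_mul h4.ne' (by positivity), Real.log_one] at h5
    unfold Real.negMulLog
    nlinarith

end Cond

end Pool.Agent.Lib.MP_4c2a44_an
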