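import Pool.Agent.Lib.MP_4c2a44_an.Cl
import Pool.Agent.Lib.MP_4c2a44_an.Rank

/-!
The two codes of the relative step: the rank of the name over a random set, the label on the uncovered set.
-/

open MeasureTheory Set Filter Topology
open scoped ENNReal

namespace Pool.Agent.Lib.MP_4c2a44_an

section Pair

variable {X : Type} {mX : MeasurableSpace X} {μ : Measure X} [IsProbabilityMeasure μ]

theorem small_pair {a b : ℝ≥0∞} {β γ : X → ℕ} (hβ : Small μ a β) (hγ : Small μ b γ) :
    Small μ (a + b) (fun x => Nat.pair (β x) (γ x)) := by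
  refine ⟨?_, ?_, ?_⟩
  · have h2 : Measurable (fun q : ℕ × ℕ => Nat.pair q.1 q.2) := measurable_of_countable _
    exact h2.comp (hβ.meas.prodMk hγ.meas)
  · refine le_trans (measure_mono ?_) ((measure_union_le {x | β x ≠ 0} {x | γ x ≠ 0}).trans
      (add_le_add hβ.supp hγ.supp))
    intro x hx
    by_contra h
    simp only [Set.mem_union, Set.mem_ofPred_eq, not_or, not_not] at h
    apply hx
    show Nat.pair (β x) (γ x) = 0
    rw [h.1, h.2]
    rfl
  · exact (ent_pair hβ.meas hγ.meas).trans (add_le_add hβ.en hγ.en)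

theorem exists_b {L e : ℝ} (hL : 0 ≤ L) (he : 0 < e) :
    ∃ b : ℝ, 0 < b ∧ b ≤ 1 ∧ b ≤ e ∧ 2 * b + b * Real.log (2 / b) + 2 * (b * L) ≤ e := by
  set s : ℝ := min 1 (e / (6 + 2 * L)) with hs
  have hpos : 0 < 6 + 2 * L := by linarith
  have hs0 : 0 < s := lt_min one_pos (div_pos he hpos)
  have hs1 : s ≤ 1 := min_le_left _ _
  have hs2 : s * (6 + 2 * L) ≤ e := by
    have : s ≤ e / (6 + 2 * L) := min_le_right _ _
    rwa [le_div_iff₀ hpos] at this
  have hss : s ^ 2 ≤ s := by nlinarith
  have hlog : s ^ 2 * Real.log (2 / s ^ 2) ≤ 4 * s := by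
    have h1 := nml_sqrt (x := s ^ 2 / 2) (by positivity)
    have h2 : Real.log (2 / s ^ 2) = - Real.log (s ^ 2 / 2) := by
      rw [← Real.log_inv, inv_div]
    have h3 : Real.sqrt (s ^ 2 / 2) ≤ s := by
      rw [Real.sqrt_le_left hs0.le]
      nlinarith [sq_nonneg s]
    unfold Real.negMulLog at h1
    rw [h2]
    nlinarith
  refine ⟨s ^ 2, by positivity, by nlinarith, ?_, ?_⟩
  · nlinarith
  · nlinarith

end Pair

section Step

variable {G X Y : Type} [Group G] [MulAction G X] [MulAction G Y] {mY : MeasurableSpace Y}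
  [MeasurableSpace.CountablySeparated Y]
  {m m0 : MeasurableSpace X} {mX : MeasurableSpace X} {μ : Measure X} [IsProbabilityMeasure μ]
  {ν : Measure Y} [IsProbabilityMeasure ν]

omit [IsProbabilityMeasure μ] in
theorem rk_fn_meas {W : Type} [Fintype W] [MeasurableSpace W] [MeasurableSingletonClass W]
    (hm : m ≤ mX) {φ : X → W} (hφ : Measurable φ) :
    Measurable (fun x => rk μ m φ x (φ x)) := by
  have h : Measurable (fun q : X × W => rk μ m φ q.1 q.2) :=
    measurable_from_prod_countable_left fun w => (rk_meas w).mono hm le_rfl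
  exact h.comp (measurable_id.prodMk hφ)

open Classical in
/-- the first code: the rank of the name at the points over `B` -/
noncomputable def bone {W : Type} [Fintype W] {mX : MeasurableSpace X} (μ : Measure X)
    (m : MeasurableSpace X) (φ : X → W) (D : Set X) (x : X) : ℕ :=
  if x ∈ D then rk μ m φ x (φ x) else 0

theorem bone_meas {W : Type} [Fintype W] [MeasurableSpace W] [MeasurableSingletonClass W]
    (hm : m ≤ mX) {φ : X → W} (hφ : Measurable φ) {D : Set X} (hD : MeasurableSet D) :
    Measurable (bone μ m φ D) := by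
  classical
  unfold bone
  exact Measurable.ite hD (rk_fn_meas hm hφ) measurable_const

theorem lint_eq {W : Type} [Fintype W] [MeasurableSpace W] [MeasurableSingletonClass W]
    (hm : m ≤ mX) {φ : X → W} (hφ : Measurable φ) (D : Set X) :
    ∫⁻ x in D, ENNReal.ofReal (∑ w, Real.negMulLog (cp μ m φ w x)) ∂μ
      = ENNReal.ofReal (∫ x in D, (∑ w, Real.negMulLog (cp μ m φ w x)) ∂μ) := by
  rw [ofReal_integral_eq_lintegral_ofReal]
  · exact (integrable_finsetSum _ fun w _ => nml_integrable hm hφ w).integrableOn
  · apply ae_restrict_of_ae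
    filter_upwards [cp_nonneg (μ := μ) (m := m) (φ := φ), cp_le_one hm hφ] with x h0 h1
    exact Finset.sum_nonneg fun w _ => Real.negMulLog_nonneg (h0 w) (h1 w)

theorem bone_small {W : Type} [Fintype W] [MeasurableSpace W] [MeasurableSingletonClass W]
    (hm : m ≤ mX) {φ : X → W} (hφ : Measurable φ) {D : Set X} (hD : MeasurableSet[m] D)
    {b J e : ℝ} (hb0 : 0 < b) (hb1 : b ≤ 1) (hJ0 : 0 ≤ J) (hDb : μ D ≤ ENNReal.ofReal b)
    (hJ : ∫⁻ x in D, ENNReal.ofReal (∑ w, Real.negMulLog (cp μ m φ w x)) ∂μ ≤ ENNReal.ofReal J)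
    (he1 : b ≤ e) (he2 : 2 * b + b * Real.log (2 / b) + 2 * J ≤ e) :
    Small μ (ENNReal.ofReal e) (bone μ m φ D) := by
  classical
  have hsub : {x | bone μ m φ D x ≠ 0} ⊆ D := by
    intro x hx
    by_contra h
    apply hx
    unfold bone
    rw [if_neg h]
  refine ⟨bone_meas hm hφ (hm D hD), ?_, ?_⟩
  · exact (measure_mono hsub).trans (hDb.trans (ENNReal.ofReal_le_ofReal he1))
  · refine (ent_rank (n := Fintype.card W) (b := b) (J := J) (bone_meas hm hφ (hm D hD)) ?_ hb0 hb1 ?_ ?_).trans
      (ENNReal.ofReal_le_ofReal he2)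
    · intro x
      unfold bone
      split_ifs
      · exact rk_le _ _
      · exact Nat.zero_le _
    · apply ENNReal.toReal_le_of_le_ofReal hb0.le
      exact (measure_mono hsub).trans hDb
    · have h1 : ∫ x, Real.log (bone μ m φ D x) ∂μ = ∫ x in D, Real.log (rk μ m φ x (φ x)) ∂μ := by
        rw [← integral_indicator (hm D hD)]
        congr 1
        ext x
        unfold bone
        by_cases h : x ∈ D
        · rw [if_pos h, Set.indicator_of_mem h]
        · rw [if_neg h, Set.indicator_of_notMem h]
          simp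
      rw [h1]
      refine (rank_int hm hφ hD).trans ?_
      rw [lint_eq hm hφ] at hJ
      exact (ENNReal.ofReal_le_ofReal_iff hJ0).1 hJ

open Classical in
/-- the second code: the label on the uncovered set -/
noncomputable def btwo {k : ℕ} (f : X → Fin k) (U : Set X) (x : X) : ℕ :=
  if x ∈ U then (f x : ℕ) + 1 else 0

theorem btwo_meas {k : ℕ} {f : X → Fin k} (hf : Measurable f) {U : Set X} (hU : MeasurableSet U) :
    Measurable (btwo f U) := by
  classical
  unfold btwo
  refine Measurable.ite hU ?_ measurable_const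
  have h2 : Measurable (fun i : Fin k => (i : ℕ) + 1) := measurable_of_countable _
  exact h2.comp hf

theorem btwo_small {k : ℕ} {f : X → Fin k} (hf : Measurable f) {U : Set X} (hU : MeasurableSet U)
    {b e : ℝ} (hb0 : 0 < b) (hb1 : b ≤ 1) (hUb : μ U ≤ ENNReal.ofReal b) (he1 : b ≤ e)
    (he2 : 2 * b + b * Real.log (2 / b) + 2 * (b * Real.log (k + 1)) ≤ e) :
    Small μ (ENNReal.ofReal e) (btwo f U) := by
  classical
  have hL : 0 ≤ Real.log ((k : ℝ) + 1) := Real.log_nonneg (by
    have : (0 : ℝ) ≤ k := Nat.cast_nonneg k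
    linarith)
  have hsub : {x | btwo f U x ≠ 0} ⊆ U := by
    intro x hx
    by_contra h
    apply hx
    unfold btwo
    rw [if_neg h]
  refine ⟨btwo_meas hf hU, ?_, ?_⟩
  · exact (measure_mono hsub).trans (hUb.trans (ENNReal.ofReal_le_ofReal he1))
  · refine (ent_rank (n := k + 1) (b := b) (J := b * Real.log (k + 1)) (btwo_meas hf hU) ?_ hb0 hb1 ?_ ?_).trans
      (ENNReal.ofReal_le_ofReal he2)
    · intro x
      unfold btwo
      split_ifs
      · have := (f x).2
        omega
      · exact Nat.zero_le _
    · apply ENNReal.toReal_le_of_le_ofReal hb0.le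
      exact (measure_mono hsub).trans hUb
    · have h1 : ∀ x, Real.log (btwo f U x) ≤ U.indicator (fun _ => Real.log ((k : ℝ) + 1)) x := by
        intro x
        unfold btwo
        by_cases h : x ∈ U
        · rw [if_pos h, Set.indicator_of_mem h]
          have h2 : ((f x : ℕ) : ℝ) + 1 ≤ k + 1 := by
            have := (f x).2
            have : ((f x : ℕ) : ℝ) ≤ k := by exact_mod_cast this.le
            linarith
          push_cast
          exact Real.log_le_log (by positivity) h2
        · rw [if_neg h, Set.indicator_of_notMem h]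
          simp
      have h2 : Integrable (fun x => Real.log (btwo f U x)) μ := by
        refine Integrable.of_bound (C := Real.log ((k : ℝ) + 1)) ?_ (Eventually.of_forall fun x => ?_)
        · exact ((Real.measurable_log.comp measurable_from_nat).comp
            (btwo_meas hf hU)).aestronglyMeasurable
        · have h3 : 0 ≤ Real.log (btwo f U x) := Real.log_natCast_nonneg _
          rw [Real.norm_of_nonneg h3]
          refine (h1 x).trans ?_
          exact Set.indicator_le_self' (fun _ _ => hL) x
      refine (integral_mono h2 ((integrable_const _).indicator hU) h1).trans ?_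
      rw [integral_indicator_const _ hU, smul_eq_mul]
      apply mul_le_mul_of_nonneg_right _ hL
      exact ENNReal.toReal_le_of_le_ofReal hb0.le hUb

end Step

end Pool.Agent.Lib.MP_4c2a44_an
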